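import Mathlib
import Pool.Agent.W490.CMA.Base

set_option autoImplicit false

/-!
# Arrangements with the same dependent quadruples have isomorphic intersection lattices
-/

namespace Pool.Agent.W490.CMA

variable {K : Type} [Field K]

theorem det4_eq (a b c d : Fin 4 → K) : det4 a b c d = Matrix.det (Matrix.of ![a, b, c, d]) := by
  rw [Matrix.det_succ_row_zero]
  simp [Fin.sum_univ_succ, Matrix.det_fin_three, det4, Fin.succAbove]
  ring

theorem det4_ne_zero {a b c d : Fin 4 → K} (h : LinearIndependent K ![a, b, c, d]) :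
    det4 a b c d ≠ 0 := by
  have h' : LinearIndependent K (Matrix.of ![a, b, c, d]).row := h
  rw [Matrix.linearIndependent_rows_iff_isUnit, Matrix.isUnit_iff_isUnit_det, ← det4_eq] at h'
  exact h'.ne_zero

/-- the zero set of the forms with indices in `S` -/
def W {n : ℕ} (u : Fin n → Fin 4 → K) (S : Finset (Fin n)) : Set (Fin 4 → K) :=
  {x : Fin 4 → K | ∀ i ∈ S, ∑ j : Fin 4, u i j * x j = 0}

/-- linearity of `det4` in the last argument: it is a linear functional -/
def dfun (a b c : Fin 4 → K) : (Fin 4 → K) →ₗ[K] K where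
  toFun x := det4 a b c x
  map_add' x y := by simp only [det4, Pi.add_apply]; ring
  map_smul' r x := by simp only [det4, Pi.smul_apply, smul_eq_mul, RingHom.id_apply]; ring

/-- separation of a vector from the span of other vectors by a hyperplane spanned by three vectors
of the arrangement -/
theorem sep {n : ℕ} (u : Fin n → Fin 4 → K) (hu : Submodule.span K (Set.range u) = ⊤)
    (S : Set (Fin n)) (i : Fin n) (hi : u i ∉ Submodule.span K (u '' S)) :
    ∃ a b c : Fin n, (∀ j ∈ S, det4 (u a) (u b) (u c) (u j) = 0) ∧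
      det4 (u a) (u b) (u c) (u i) ≠ 0 := by
  classical
  obtain ⟨b0, hb0S, -, hspan0, hind0⟩ := exists_linearIndepOn_extension
    (linearIndepOn_empty K u) (Set.empty_subset S)
  have hi0 : u i ∉ Submodule.span K (u '' b0) := fun h =>
    hi (Submodule.span_mono (Set.image_mono hb0S) h)
  obtain ⟨b, -, hb1, hspan, hind⟩ := exists_linearIndepOn_extension (hind0.insert hi0)
    (Set.subset_univ _)
  have htop : ⊤ ≤ Submodule.span K (u '' b) := by
    rw [← hu, Submodule.span_le, ← Set.image_univ]
    exact hspan
  have hib : i ∈ b := hb1 (Set.mem_insert _ _)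
  have hib0 : i ∉ b0 := fun h => hi0 (Submodule.subset_span (Set.mem_image_of_mem u h))
  have hcard : Fintype.card b = 4 := by
    have hrange : Set.range (fun x : b => u x) = u '' b := by
      ext y; simp
    let B : Module.Basis b K (Fin 4 → K) := Module.Basis.mk hind (by rw [hrange]; exact htop)
    have := Module.finrank_eq_card_basis B
    simpa using this.symm
  have hcard' : (b.toFinset.erase i).card = 3 := by
    rw [Finset.card_erase_of_mem (by simpa using hib), Set.toFinset_card, hcard]
  obtain ⟨x, y, z, hxy, hxz, hyz, hxyz⟩ := Finset.card_eq_three.1 hcard'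
  have hmem : ∀ w, w ∈ b ∧ w ≠ i ↔ w = x ∨ w = y ∨ w = z := by
    intro w
    have : w ∈ b.toFinset.erase i ↔ w ∈ ({x, y, z} : Finset (Fin n)) := by rw [hxyz]
    simpa [and_comm] using this
  have hx := (hmem x).2 (by simp)
  have hy := (hmem y).2 (by simp)
  have hz := (hmem z).2 (by simp)
  refine ⟨x, y, z, ?_, ?_⟩
  · intro j hj
    have h1 : u j ∈ Submodule.span K (u '' b0) := hspan0 (Set.mem_image_of_mem u hj)
    have h2 : Submodule.span K (u '' b0) ≤ LinearMap.ker (dfun (u x) (u y) (u z)) := by
      rw [Submodule.span_le]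
      rintro _ ⟨w, hw, rfl⟩
      have hw' := (hmem w).1 ⟨hb1 (Set.mem_insert_of_mem _ hw), fun h => hib0 (h ▸ hw)⟩
      change det4 (u x) (u y) (u z) (u w) = 0
      rcases hw' with rfl | rfl | rfl
      · simp only [det4]; ring
      · simp only [det4]; ring
      · simp only [det4]; ring
    exact h2 h1
  · apply det4_ne_zero
    let e : Fin 4 → b := ![⟨x, hx.1⟩, ⟨y, hy.1⟩, ⟨z, hz.1⟩, ⟨i, hib⟩]
    have he : Function.Injective e := by
      intro s t hst
      have h1 := hx.2
      have h2 := hy.2
      have h3 := hz.2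
      fin_cases s <;> fin_cases t <;> simp [e] at hst ⊢ <;>
        first
          | exact absurd hst hxy | exact absurd hst.symm hxy
          | exact absurd hst hxz | exact absurd hst.symm hxz
          | exact absurd hst hyz | exact absurd hst.symm hyz
          | exact absurd hst h1 | exact absurd hst.symm h1
          | exact absurd hst h2 | exact absurd hst.symm h2
          | exact absurd hst h3 | exact absurd hst.symm h3
    have hcomp := (show LinearIndependent K (fun w : b => u w) from hind).comp e he
    convert hcomp using 1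
    ext s t
    fin_cases s <;> rfl

theorem W_le_iff {n : ℕ} (u : Fin n → Fin 4 → K) (hu : Submodule.span K (Set.range u) = ⊤)
    (S T : Finset (Fin n)) : W u S ⊆ W u T ↔
      ∀ i ∈ T, ¬ ∃ a b c : Fin n, (∀ j ∈ S, det4 (u a) (u b) (u c) (u j) = 0) ∧
        det4 (u a) (u b) (u c) (u i) ≠ 0 := by
  constructor
  · rintro h i hi ⟨a, b, c, h1, h2⟩
    -- the normal vector of the hyperplane spanned by `a`, `b`, `c`
    let x : Fin 4 → K := fun j => det4 (u a) (u b) (u c) (Pi.single j 1)
    have hx : ∀ v : Fin 4 → K, ∑ j, v j * x j = det4 (u a) (u b) (u c) v := by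
      intro v
      simp only [x, Fin.sum_univ_four, det4]
      simp
      ring
    have h3 : x ∈ W u S := fun j hj => by rw [hx]; exact h1 j hj
    have h4 := h h3 i hi
    rw [hx] at h4
    exact h2 h4
  · intro h x hx i hi
    have h1 : u i ∈ Submodule.span K (u '' (S : Set (Fin n))) := by
      by_contra hne
      exact h i hi (by simpa using sep u hu (S : Set (Fin n)) i hne)
    let φ : (Fin 4 → K) →ₗ[K] K :=
      { toFun := fun v => ∑ j, v j * x j
        map_add' := fun v w => by simp [add_mul, Finset.sum_add_distrib]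
        map_smul' := fun r v => by simp [Finset.mul_sum, mul_assoc] }
    have h2 : Submodule.span K (u '' (S : Set (Fin n))) ≤ LinearMap.ker φ := by
      rw [Submodule.span_le]
      rintro _ ⟨j, hj, rfl⟩
      exact hx j hj
    exact h2 h1

theorem iso_of {α β : Type} (F G : α → Set β) (h : ∀ S T, F S ⊆ F T ↔ G S ⊆ G T) :
    Nonempty (↥{X : Set β | ∃ S, X = F S} ≃o ↥{X : Set β | ∃ S, X = G S}) := by
  classical
  have heq : ∀ S T, F S = F T ↔ G S = G T := by
    intro S T
    rw [Set.Subset.antisymm_iff, Set.Subset.antisymm_iff, h, h]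
  choose cF hcF using fun X : ↥{X : Set β | ∃ S, X = F S} => X.2
  choose cG hcG using fun X : ↥{X : Set β | ∃ S, X = G S} => X.2
  refine ⟨
    { toFun := fun X => ⟨G (cF X), cF X, rfl⟩
      invFun := fun X => ⟨F (cG X), cG X, rfl⟩
      left_inv := ?_
      right_inv := ?_
      map_rel_iff' := ?_ }⟩
  · intro X
    apply Subtype.ext
    refine Eq.trans ?_ (hcF X).symm
    change F _ = F _
    rw [heq]
    exact (hcG ⟨G (cF X), cF X, rfl⟩).symm
  · intro X
    apply Subtype.ext
    refine Eq.trans ?_ (hcG X).symm
    change G _ = G _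
    rw [← heq]
    exact (hcF ⟨F (cG X), cG X, rfl⟩).symm
  · intro X Y
    change G (cF X) ⊆ G (cF Y) ↔ X.1 ⊆ Y.1
    rw [← h, ← hcF X, ← hcF Y]

/-- two arrangements with the same dependent quadruples have isomorphic intersection lattices -/
theorem lattice_iso {n : ℕ} (u v : Fin n → Fin 4 → K) (hu : Submodule.span K (Set.range u) = ⊤)
    (hv : Submodule.span K (Set.range v) = ⊤)
    (h : ∀ a b c d, det4 (u a) (u b) (u c) (u d) = 0 ↔ det4 (v a) (v b) (v c) (v d) = 0) :
    Nonempty (↥{X : Set (Fin 4 → K) | ∃ S : Finset (Fin n),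
                  X = {x : Fin 4 → K | ∀ i ∈ S, ∑ j : Fin 4, u i j * x j = 0}} ≃o
                ↥{X : Set (Fin 4 → K) | ∃ S : Finset (Fin n),
                  X = {x : Fin 4 → K | ∀ i ∈ S, ∑ j : Fin 4, v i j * x j = 0}}) := by
  refine iso_of (W u) (W v) ?_
  intro S T
  rw [W_le_iff u hu, W_le_iff v hv]
  simp only [h, ne_eq]

end Pool.Agent.W490.CMA
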