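import Mathlib
import Pool.Agent.W490.CMA.Base

set_option autoImplicit false

/-!
# Regularity of `s - α, t - β` on the coordinate rings of unions of lines
-/

namespace Pool.Agent.W490.CMA

open MvPolynomial

/-- the ideal of the union of the lines of a list -/
noncomputable def II (L : List (V × V)) : Ideal R := (L.map fun pq => Pid pq.1 pq.2).foldr (· ⊓ ·) ⊤

theorem mem_II (L : List (V × V)) (g : R) : g ∈ II L ↔ ∀ pq ∈ L, g ∈ Pid pq.1 pq.2 := by
  unfold II
  induction L with
  | nil => simp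
  | cons a L ih =>
    simp only [List.map_cons, List.foldr_cons, Ideal.mem_inf, List.mem_cons, forall_eq_or_imp]
    rw [ih]

/-- a product of linear forms -/
noncomputable def prodL (hs : List V) : R := (hs.map lin).prod

theorem prodL_nil : prodL [] = 1 := rfl
theorem prodL_cons (h : V) (hs : List V) : prodL (h :: hs) = lin h * prodL hs := by
  simp [prodL]

theorem prodL_mem {I : Ideal R} {hs : List V} {h : V} (hh : h ∈ hs) (hI : lin h ∈ I) :
    prodL hs ∈ I := by
  have : lin h ∣ prodL hs := List.dvd_prod (List.mem_map_of_mem hh)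
  exact Ideal.mem_of_dvd I this hI

/-- `s - α` is regular modulo `I` and `t - β` is regular modulo `I + (s - α)`, for all `α`, `β` -/
def Reg (I : Ideal R) : Prop := ∀ α β : ℂ,
  (∀ g, (lin sV - C α) * g ∈ I → g ∈ I) ∧
  (∀ g, (lin tV - C β) * g ∈ I ⊔ Ideal.span {lin sV - C α} → g ∈ I ⊔ Ideal.span {lin sV - C α})

theorem reg_top : Reg ⊤ := by
  intro α β
  simp

theorem mem_sup_span {I : Ideal R} {a g : R} : g ∈ I ⊔ Ideal.span {a} ↔ ∃ i ∈ I, ∃ b, g = i + a * b := by
  rw [Submodule.mem_sup]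
  constructor
  · rintro ⟨i, hi, z, hz, rfl⟩
    obtain ⟨b, rfl⟩ := Ideal.mem_span_singleton'.1 hz
    exact ⟨i, hi, b, by ring⟩
  · rintro ⟨i, hi, b, rfl⟩
    exact ⟨i, hi, a * b, Ideal.mem_span_singleton'.2 ⟨b, by ring⟩, rfl⟩

/-- gluing: `0 → R / I' → R / I → R / K → 0`, where the first map is the multiplication by `e` -/
theorem reg_colon {I I' K : Ideal R} (e : R) (h1 : ∀ a, e * a ∈ I ↔ a ∈ I')
    (h2 : ∀ g, g ∈ K ↔ ∃ i ∈ I, ∃ b, g = i + e * b) (hI' : Reg I') (hK : Reg K) : Reg I := by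
  intro α β
  have hle : I ≤ K := fun g hg => (h2 g).2 ⟨g, hg, 0, by ring⟩
  obtain ⟨a1, a2⟩ := hI' α β
  obtain ⟨k1, k2⟩ := hK α β
  have i1 : ∀ g, (lin sV - C α) * g ∈ I → g ∈ I := by
    intro g hg
    obtain ⟨i, hi, b, rfl⟩ := (h2 g).1 (k1 g (hle hg))
    have h3 : e * ((lin sV - C α) * b) ∈ I := by
      have : e * ((lin sV - C α) * b) = (lin sV - C α) * (i + e * b) - (lin sV - C α) * i := by ring
      rw [this]
      exact Ideal.sub_mem _ hg (Ideal.mul_mem_left _ _ hi)
    have h4 := a1 b ((h1 _).1 h3)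
    exact Ideal.add_mem _ hi ((h1 b).2 h4)
  refine ⟨i1, ?_⟩
  intro g hg
  obtain ⟨i0, hi0, c0, hc0⟩ := mem_sup_span.1 hg
  have h3 : g ∈ K ⊔ Ideal.span {lin sV - C α} := by
    apply k2
    rw [hc0]
    exact mem_sup_span.2 ⟨i0, hle hi0, c0, rfl⟩
  obtain ⟨i, hi, b, rfl⟩ := mem_sup_span.1 h3
  obtain ⟨i', hi', a, rfl⟩ := (h2 i).1 hi
  -- τ e a = i0 + σ c0 - τ i' - τ σ b
  have h5 : (lin sV - C α) * (c0 - (lin tV - C β) * b) ∈ K := by
    have : (lin sV - C α) * (c0 - (lin tV - C β) * b) =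
        (lin tV - C β) * i' - i0 + e * ((lin tV - C β) * a) := by linear_combination -hc0
    rw [this]
    exact Ideal.add_mem _ (Ideal.sub_mem _ (Ideal.mul_mem_left _ _ (hle hi')) (hle hi0))
      ((h2 _).2 ⟨0, Ideal.zero_mem _, (lin tV - C β) * a, by ring⟩)
  obtain ⟨i'', hi'', d, hd⟩ := (h2 _).1 (k1 _ h5)
  have h6 : e * ((lin tV - C β) * a - (lin sV - C α) * d) ∈ I := by
    have : e * ((lin tV - C β) * a - (lin sV - C α) * d) =
        i0 - (lin tV - C β) * i' + (lin sV - C α) * i'' := by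
      linear_combination hc0 + (lin sV - C α) * hd
    rw [this]
    exact Ideal.add_mem _ (Ideal.sub_mem _ hi0 (Ideal.mul_mem_left _ _ hi'))
      (Ideal.mul_mem_left _ _ hi'')
  have h7 : a ∈ I' ⊔ Ideal.span {lin sV - C α} := by
    apply a2
    exact mem_sup_span.2 ⟨_, (h1 _).1 h6, d, by ring⟩
  obtain ⟨j, hj, e', rfl⟩ := mem_sup_span.1 h7
  exact mem_sup_span.2 ⟨i' + e * j, Ideal.add_mem _ hi' ((h1 _).2 hj), e * e' + b, by ring⟩

/-- adding one component `P` (a prime ideal) to `I₀`, if the restriction of `I₀` to the component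
is principal, generated by (the restriction of) `f ∈ I₀` -/
theorem reg_line {I₀ P : Ideal R} (hP : P.IsPrime) (f : R) (hf : f ∈ I₀) (hfP : f ∉ P)
    (h : ∀ g ∈ I₀, ∃ u, g - f * u ∈ P) (h0 : Reg I₀) (hRP : Reg P) : Reg (P ⊓ I₀) := by
  intro α β
  obtain ⟨a1, a2⟩ := h0 α β
  obtain ⟨p1, p2⟩ := hRP α β
  refine ⟨fun g hg => ⟨p1 g hg.1, a1 g hg.2⟩, ?_⟩
  intro g hg
  obtain ⟨i0, hi0, c0, hc0⟩ := mem_sup_span.1 hg
  have h3 : g ∈ I₀ ⊔ Ideal.span {lin sV - C α} := by
    apply a2
    rw [hc0]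
    exact mem_sup_span.2 ⟨i0, hi0.2, c0, rfl⟩
  obtain ⟨j, hj, b, rfl⟩ := mem_sup_span.1 h3
  have h4 : c0 - (lin tV - C β) * b ∈ I₀ := by
    apply a1
    have : (lin sV - C α) * (c0 - (lin tV - C β) * b) = (lin tV - C β) * j - i0 := by
      linear_combination -hc0
    rw [this]
    exact Ideal.sub_mem _ (Ideal.mul_mem_left _ _ hj) hi0.2
  obtain ⟨a, ha⟩ := h j hj
  obtain ⟨d, hd⟩ := h _ h4
  have h5 : f * ((lin tV - C β) * a - (lin sV - C α) * d) ∈ P := by
    have : f * ((lin tV - C β) * a - (lin sV - C α) * d) =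
        i0 + (lin sV - C α) * ((c0 - (lin tV - C β) * b) - f * d) - (lin tV - C β) * (j - f * a) := by
      linear_combination hc0
    rw [this]
    exact Ideal.sub_mem _ (Ideal.add_mem _ hi0.1 (Ideal.mul_mem_left _ _ hd))
      (Ideal.mul_mem_left _ _ ha)
  have h6 := (hP.mem_or_mem h5).resolve_left hfP
  have h7 : a ∈ P ⊔ Ideal.span {lin sV - C α} := by
    apply p2
    exact mem_sup_span.2 ⟨_, h6, d, by ring⟩
  obtain ⟨l, hl, e', rfl⟩ := mem_sup_span.1 h7
  refine mem_sup_span.2 ⟨(j - f * (l + (lin sV - C α) * e')) + f * l, ?_, f * e' + b, by ring⟩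
  refine Ideal.add_mem _ ⟨ha, ?_⟩ ⟨Ideal.mul_mem_left _ _ hl, Ideal.mul_mem_right _ _ hf⟩
  exact Ideal.sub_mem _ hj (Ideal.mul_mem_right _ _ hf)

theorem reg_Pid {p q : V} (h : nd p q) : Reg (Pid p q) := by
  intro α β
  have es : ∀ α : ℂ, eps p q (lin sV - C α) = Polynomial.X - Polynomial.C (Polynomial.C α) := by
    intro α
    rw [map_sub, eps_s h]
    congr 1
    exact algHom_C _ _
  have et : ∀ α : ℂ, eps p q (lin tV - C α) = Polynomial.C (Polynomial.X - Polynomial.C α) := by
    intro α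
    rw [map_sub, eps_t h, map_sub]
    congr 1
    exact algHom_C _ _
  constructor
  · intro g hg
    rw [mem_Pid h, map_mul, es] at hg
    rw [mem_Pid h]
    exact (mul_eq_zero.1 hg).resolve_left (Polynomial.X_sub_C_ne_zero _)
  · intro g hg
    obtain ⟨i, hi, b, hb⟩ := mem_sup_span.1 hg
    rw [mem_Pid h] at hi
    have h1 := congrArg (eps p q) hb
    rw [map_mul, map_add, map_mul, es, et, hi, zero_add] at h1
    have h2 : (eps p q g).IsRoot (Polynomial.C α) := by
      have h3 := congrArg (Polynomial.eval (Polynomial.C α)) h1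
      rw [Polynomial.eval_mul, Polynomial.eval_mul] at h3
      simp only [Polynomial.eval_C, Polynomial.eval_sub, Polynomial.eval_X, sub_self,
        zero_mul] at h3
      exact (mul_eq_zero.1 h3).resolve_left (Polynomial.X_sub_C_ne_zero _)
    obtain ⟨c, hc⟩ := Polynomial.dvd_iff_isRoot.2 h2
    refine mem_sup_span.2 ⟨g - (lin sV - C α) * iota c, ?_, iota c, by ring⟩
    rw [mem_Pid h, map_sub, map_mul, es, eps_iota h, hc, sub_self]

/-! ### planes -/

/-- the lines in the plane `ℓ = 0` cut out by the planes of a list are pairwise different, and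
they are not degenerate -/
def okP (l : V) (hs : List V) : Prop :=
  (∀ h ∈ hs, nd l h) ∧ hs.Pairwise (fun h h' => ¬ inP h l h')

instance (l : V) (hs : List V) : Decidable (okP l hs) := inferInstanceAs (Decidable (_ ∧ _))

/-- the ideal of the union of the lines in the plane `ℓ = 0` that are cut out by the planes of the
list is generated by `ℓ` and the product of the forms in the list -/
theorem planeIdeal (l : V) (hs : List V) (hok : okP l hs) (g : R) :
    (∀ h ∈ hs, g ∈ Pid l h) ↔ ∃ a b, g = lin l * a + prodL hs * b := by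
  induction hs generalizing g with
  | nil =>
    simp only [List.not_mem_nil, false_imp_iff, implies_true, true_iff]
    exact ⟨0, g, by rw [prodL_nil]; ring⟩
  | cons h hs ih =>
    have hok' : okP l hs := ⟨fun x hx => hok.1 x (List.mem_cons_of_mem _ hx),
      (List.pairwise_cons.1 hok.2).2⟩
    have hh := (List.pairwise_cons.1 hok.2).1
    constructor
    · intro hg
      have h1 := hg h List.mem_cons_self
      rw [Pid, Ideal.mem_span_pair] at h1
      obtain ⟨u, v, huv⟩ := h1
      have h2 : ∀ h' ∈ hs, v ∈ Pid l h' := by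
        intro h' hh'
        have h3 := hg h' (List.mem_cons_of_mem _ hh')
        have hnd := hok'.1 h' hh'
        have h4 : v * lin h ∈ Pid l h' := by
          have : v * lin h = g - u * lin l := by rw [← huv]; ring
          rw [this]
          exact Ideal.sub_mem _ h3 (Ideal.mul_mem_left _ _ (self_mem_left _ _))
        exact ((Pid_prime hnd).mem_or_mem h4).resolve_right
          (fun h5 => hh h' hh' ((lin_mem_Pid hnd h).1 h5))
      obtain ⟨a, b, hab⟩ := (ih hok' v).1 h2
      exact ⟨u + lin h * a, b, by rw [← huv, hab, prodL_cons]; ring⟩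
    · rintro ⟨a, b, rfl⟩ h' hh'
      refine Ideal.add_mem _ (Ideal.mul_mem_right _ _ (self_mem_left _ _))
        (Ideal.mul_mem_right _ _ (prodL_mem hh' (self_mem_right _ _)))

theorem II_map (l : V) (hs : List V) (g : R) :
    g ∈ II (hs.map fun h => (l, h)) ↔ ∀ h ∈ hs, g ∈ Pid l h := by
  rw [mem_II]
  simp

theorem reg_plane (l : V) (hs : List V) (hok : okP l hs) : Reg (II (hs.map fun h => (l, h))) := by
  induction hs with
  | nil => exact reg_top
  | cons h hs ih =>
    have hok' : okP l hs := ⟨fun x hx => hok.1 x (List.mem_cons_of_mem _ hx),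
      (List.pairwise_cons.1 hok.2).2⟩
    have hh := (List.pairwise_cons.1 hok.2).1
    have hnd := hok.1 h List.mem_cons_self
    refine reg_colon (K := Pid l h) (lin h) ?_ ?_ (ih hok') (reg_Pid hnd)
    · intro a
      rw [II_map, II_map]
      constructor
      · intro h1 h' hh'
        have hnd' := hok'.1 h' hh'
        exact ((Pid_prime hnd').mem_or_mem (h1 h' (List.mem_cons_of_mem _ hh'))).resolve_left
          (fun h5 => hh h' hh' ((lin_mem_Pid hnd' h).1 h5))
      · intro h1 h' hh'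
        rcases List.mem_cons.1 hh' with rfl | hh'
        · exact Ideal.mul_mem_right _ _ (self_mem_right _ _)
        · exact Ideal.mul_mem_left _ _ (h1 h' hh')
    · intro g
      constructor
      · intro hg
        rw [Pid, Ideal.mem_span_pair] at hg
        obtain ⟨u, v, huv⟩ := hg
        refine ⟨u * lin l, ?_, v, by rw [← huv]; ring⟩
        rw [II_map]
        intro h' _
        exact Ideal.mul_mem_left _ _ (self_mem_left _ _)
      · rintro ⟨i, hi, b, rfl⟩
        refine Ideal.add_mem _ ?_ (Ideal.mul_mem_right _ _ (self_mem_right _ _))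
        exact (II_map l (h :: hs) i).1 hi h List.mem_cons_self

/-- conditions for adding the lines in the plane `l = 0` to a list -/
def okStep (l : V) (hs : List V) (L : List (V × V)) : Prop :=
  okP l hs ∧ ∀ pq ∈ L, ¬ inP l pq.1 pq.2 ∧ ∃ h ∈ hs, inP h pq.1 pq.2

instance (l : V) (hs : List V) (L : List (V × V)) : Decidable (okStep l hs L) :=
  inferInstanceAs (Decidable (_ ∧ _))

/-- all lines of the list are not degenerate -/
def ndL (L : List (V × V)) : Prop := ∀ pq ∈ L, nd pq.1 pq.2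

instance (L : List (V × V)) : Decidable (ndL L) :=
  inferInstanceAs (Decidable (∀ pq ∈ L, nd pq.1 pq.2))

theorem step (l : V) (hs : List V) (L : List (V × V)) (hL : ndL L) (hok : okStep l hs L)
    (hreg : Reg (II L)) : Reg (II ((hs.map fun h => (l, h)) ++ L)) := by
  have happ : ∀ g, g ∈ II ((hs.map fun h => (l, h)) ++ L) ↔
      (∀ h ∈ hs, g ∈ Pid l h) ∧ g ∈ II L := by
    intro g
    rw [← II_map, mem_II, mem_II, mem_II]
    simp only [List.mem_append]
    constructor
    · intro h
      exact ⟨fun pq hp => h pq (Or.inl hp), fun pq hp => h pq (Or.inr hp)⟩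
    · rintro ⟨h1, h2⟩ pq (hp | hp)
      · exact h1 pq hp
      · exact h2 pq hp
  have hF : prodL hs ∈ II L := by
    rw [mem_II]
    intro pq hpq
    obtain ⟨h, hh, hin⟩ := (hok.2 pq hpq).2
    exact prodL_mem hh ((lin_mem_Pid (hL pq hpq) h).2 hin)
  refine reg_colon (K := II (hs.map fun h => (l, h))) (lin l) ?_ ?_ hreg (reg_plane l hs hok.1)
  · intro a
    rw [happ]
    constructor
    · rintro ⟨-, h2⟩
      rw [mem_II] at h2 ⊢
      intro pq hpq
      exact ((Pid_prime (hL pq hpq)).mem_or_mem (h2 pq hpq)).resolve_left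
        (fun h5 => (hok.2 pq hpq).1 ((lin_mem_Pid (hL pq hpq) l).1 h5))
    · intro h
      exact ⟨fun h' _ => Ideal.mul_mem_right _ _ (self_mem_left _ _), Ideal.mul_mem_left _ _ h⟩
  · intro g
    rw [II_map, planeIdeal l hs hok.1]
    constructor
    · rintro ⟨a, b, rfl⟩
      refine ⟨prodL hs * b, ?_, a, by ring⟩
      rw [happ]
      exact ⟨fun h hh => Ideal.mul_mem_right _ _ (prodL_mem hh (self_mem_right _ _)),
        Ideal.mul_mem_right _ _ hF⟩
    · rintro ⟨i, hi, b, rfl⟩
      obtain ⟨a, b', hab⟩ := (planeIdeal l hs hok.1 i).1 ((happ i).1 hi).1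
      exact ⟨a + b, b', by rw [hab]; ring⟩

end Pool.Agent.W490.CMA
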