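import Mathlib
import Pool.Agent.H957R3.CM
import Pool.Agent.W490.CMA.Steps

set_option autoImplicit false

/-!
# The coordinate ring of a union of lines with `Reg` is Cohen-Macaulay
-/

namespace Pool.Agent.W490.CMA

open MvPolynomial

/-- all localizations of `S` at prime ideals have a regular sequence in the maximal ideal whose
length is the Krull dimension -/
def IsCM (S : Type) [CommRing S] : Prop :=
  ∀ (p : Ideal S) [p.IsPrime], ∃ rs : List (Localization.AtPrime p),
    (∀ r ∈ rs, r ∈ IsLocalRing.maximalIdeal (Localization.AtPrime p)) ∧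
    RingTheory.Sequence.IsRegular (Localization.AtPrime p) rs ∧
    (rs.length : WithBot ℕ∞) = ringKrullDim (Localization.AtPrime p)

theorem wr_of_reg (I : Ideal R) (h : Reg I) (α β : ℂ) :
    RingTheory.Sequence.IsWeaklyRegular (R ⧸ I)
      [Ideal.Quotient.mk I (lin sV - C α), Ideal.Quotient.mk I (lin tV - C β)] := by
  obtain ⟨h1, h2⟩ := h α β
  rw [RingTheory.Sequence.isWeaklyRegular_cons_iff, RingTheory.Sequence.isWeaklyRegular_singleton_iff]
  constructor
  · intro a b hab
    obtain ⟨a, rfl⟩ := Ideal.Quotient.mk_surjective a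
    obtain ⟨b, rfl⟩ := Ideal.Quotient.mk_surjective b
    have hab' : Ideal.Quotient.mk I ((lin sV - C α) * a) = Ideal.Quotient.mk I ((lin sV - C α) * b) := by
      rw [map_mul, map_mul]; exact hab
    rw [Ideal.Quotient.eq, ← mul_sub] at hab'
    exact Ideal.Quotient.eq.2 (h1 _ hab')
  · intro a b hab
    obtain ⟨a, rfl⟩ := Submodule.Quotient.mk_surjective _ a
    obtain ⟨b, rfl⟩ := Submodule.Quotient.mk_surjective _ b
    obtain ⟨a, rfl⟩ := Ideal.Quotient.mk_surjective a
    obtain ⟨b, rfl⟩ := Ideal.Quotient.mk_surjective b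
    have key : ∀ x y : R, (Submodule.Quotient.mk (Ideal.Quotient.mk I x) :
        QuotSMulTop (Ideal.Quotient.mk I (lin sV - C α)) (R ⧸ I)) =
        Submodule.Quotient.mk (Ideal.Quotient.mk I y) ↔
        x - y ∈ I ⊔ Ideal.span {lin sV - C α} := by
      intro x y
      rw [Submodule.Quotient.eq, Submodule.mem_smul_pointwise_iff_exists, mem_sup_span]
      constructor
      · rintro ⟨z, -, hz⟩
        obtain ⟨z, rfl⟩ := Ideal.Quotient.mk_surjective z
        have hz' : Ideal.Quotient.mk I ((lin sV - C α) * z) = Ideal.Quotient.mk I (x - y) := by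
          rw [map_mul, map_sub (Ideal.Quotient.mk I) x y]; exact hz
        rw [eq_comm, Ideal.Quotient.eq] at hz'
        exact ⟨_, hz', z, by ring⟩
      · rintro ⟨i, hi, b, hb⟩
        refine ⟨Ideal.Quotient.mk I b, trivial, ?_⟩
        rw [smul_eq_mul, ← map_mul, ← map_sub, eq_comm, Ideal.Quotient.eq, hb]
        simpa using hi
    have hab' : (Submodule.Quotient.mk (Ideal.Quotient.mk I ((lin tV - C β) * a)) :
        QuotSMulTop (Ideal.Quotient.mk I (lin sV - C α)) (R ⧸ I)) =
        Submodule.Quotient.mk (Ideal.Quotient.mk I ((lin tV - C β) * b)) := by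
      rw [map_mul, map_mul]; exact hab
    rw [key, ← mul_sub] at hab'
    exact (key a b).2 (h2 _ hab')

theorem dim_A : ringKrullDim A = 2 := by
  rw [Polynomial.ringKrullDim_of_isNoetherianRing, Polynomial.ringKrullDim_of_isNoetherianRing,
    ringKrullDim_eq_zero_of_field]
  norm_num

theorem dim_Pid {p q : V} (h : nd p q) : ringKrullDim (R ⧸ Pid p q) ≤ 2 := by
  have hker : RingHom.ker (eps p q).toRingHom = Pid p q := by
    ext g
    rw [mem_Pid h]
    rfl
  have hsurj : Function.Surjective (eps p q).toRingHom := fun x => ⟨iota x, eps_iota h x⟩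
  have e := (Ideal.quotEquivOfEq hker.symm).trans (RingHom.quotientKerEquivOfSurjective hsurj)
  rw [ringKrullDim_eq_of_ringEquiv e, dim_A]

theorem exists_le_of_II {L : List (V × V)} {P : Ideal R} (hP : P.IsPrime) (h : II L ≤ P) :
    ∃ pq ∈ L, Pid pq.1 pq.2 ≤ P := by
  induction L with
  | nil =>
    exfalso
    have : II [] = ⊤ := rfl
    rw [this] at h
    exact hP.ne_top (top_le_iff.1 h)
  | cons a L ih =>
    have : II (a :: L) = Pid a.1 a.2 ⊓ II L := rfl
    rw [this, hP.inf_le] at h
    rcases h with h | h
    · exact ⟨a, by simp, h⟩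
    · obtain ⟨pq, hpq, hle⟩ := ih h
      exact ⟨pq, List.mem_cons_of_mem _ hpq, hle⟩

theorem dim_II {L : List (V × V)} (hL : ndL L) : ringKrullDim (R ⧸ II L) ≤ 2 := by
  rw [ringKrullDim_quotient]
  unfold Order.krullDim
  refine iSup_le fun l => ?_
  have h0 : II L ≤ l.head.1.asIdeal := l.head.2
  obtain ⟨pq, hpq, hle⟩ := exists_le_of_II l.head.1.2 h0
  have hall : ∀ i, Pid pq.1 pq.2 ≤ (l i).1.asIdeal := fun i =>
    le_trans hle (l.head_le i)
  let l' : LTSeries (PrimeSpectrum.zeroLocus (R := R) (Pid pq.1 pq.2)) :=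
    { length := l.length
      toFun := fun i => ⟨(l i).1, hall i⟩
      step := fun i => l.step i }
  have h1 := dim_Pid (hL pq hpq)
  rw [ringKrullDim_quotient] at h1
  exact le_trans (Order.LTSeries.length_le_krullDim l') h1

theorem isReduced_II {L : List (V × V)} (hL : ndL L) : IsReduced (R ⧸ II L) := by
  rw [← Ideal.isRadical_iff_quotient_reduced]
  intro g hg
  rw [mem_II]
  intro pq hpq
  obtain ⟨n, hn⟩ := hg
  exact (Pid_prime (hL pq hpq)).mem_of_pow_mem n ((mem_II L _).1 hn pq hpq)

theorem isCM_of_reg {L : List (V × V)} (hL : ndL L) (hreg : Reg (II L)) : IsCM (R ⧸ II L) := by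
  intro p hp
  have hred := isReduced_II hL
  have hdim := dim_II hL
  have hnoe : IsNoetherianRing (Localization.AtPrime p) :=
    IsLocalization.isNoetherianRing p.primeCompl _ inferInstance
  have hred' : IsReduced (Localization.AtPrime p) :=
    isReduced_localizationPreserves p.primeCompl (Localization.AtPrime p) hred
  by_cases h1 : p.height ≤ 1
  · have := Pool.Agent.H957R3.CM.local_of_reduced_dim_le_one (Localization.AtPrime p) (by
      rw [IsLocalization.AtPrime.ringKrullDim_eq_height p]
      exact_mod_cast h1)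
    exact this.2
  · have h2 : (2 : ℕ∞) ≤ p.height := by
      rw [not_le] at h1
      have := Order.add_one_le_of_lt h1
      norm_num at this
      exact this
    have h3 : p.height ≤ 2 := by
      have := le_trans (Ideal.height_le_ringKrullDim_of_isPrime (I := p)) hdim
      exact WithBot.coe_le_coe.1 this
    have h4 : p.height = 2 := le_antisymm h3 h2
    have hmax : p.IsMaximal := by
      obtain ⟨M, hM, hpM⟩ := Ideal.exists_le_maximal p hp.ne_top
      rcases eq_or_lt_of_le hpM with rfl | hlt
      · exact hM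
      · exfalso
        have h5 := Ideal.height_add_one_le_of_lt_of_isPrime hlt
        have h6 : M.height ≤ 2 := by
          have := le_trans (Ideal.height_le_ringKrullDim_of_isPrime (I := M)) hdim
          exact WithBot.coe_le_coe.1 this
        rw [h4] at h5
        have h7 := le_trans h5 h6
        revert h7
        decide
    have hmax' : (p.comap (Ideal.Quotient.mk (II L))).IsMaximal :=
      Ideal.comap_isMaximal_of_surjective _ Ideal.Quotient.mk_surjective
    obtain ⟨x, hx⟩ := MvPolynomial.isMaximal_iff_eq_vanishingIdeal_singleton.1 hmax'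
    have hσ : ∀ (v : V), Ideal.Quotient.mk (II L) (lin v - C (aeval x (lin v))) ∈ p := by
      intro v
      rw [← Ideal.mem_comap, hx, mem_vanishingIdeal_iff]
      intro y hy
      rw [Set.mem_singleton_iff] at hy
      subst hy
      simp
    have hmem : ∀ r ∈ [Ideal.Quotient.mk (II L) (lin sV - C (aeval x (lin sV))),
        Ideal.Quotient.mk (II L) (lin tV - C (aeval x (lin tV)))], r ∈ p := by
      intro r hr
      simp only [List.mem_cons, List.not_mem_nil, or_false] at hr
      rcases hr with rfl | rfl
      · exact hσ sV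
      · exact hσ tV
    have hr := (wr_of_reg (II L) hreg (aeval x (lin sV)) (aeval x (lin tV))).isRegular_of_isLocalization_of_mem
      (S := Localization.AtPrime p) p hmem
    refine ⟨_, ?_, hr, ?_⟩
    · intro r hr
      obtain ⟨r', hr', rfl⟩ := List.mem_map.1 hr
      exact (IsLocalization.AtPrime.to_map_mem_maximal_iff (Localization.AtPrime p) p r').2 (hmem r' hr')
    · rw [IsLocalization.AtPrime.ringKrullDim_eq_height p, h4]
      rfl

end Pool.Agent.W490.CMA
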