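import Mathlib
import Pool.Agent.W490.CMA.Steps

set_option autoImplicit false

/-!
# Restriction to the line `x = y = 0`
-/

namespace Pool.Agent.W490.CMA

open MvPolynomial

/-- the plane `x = 0` -/
def a1 : V := ![1, 0, 0, 0]
/-- the plane `y = 0` -/
def a2 : V := ![0, 1, 0, 0]

/-- restriction to the line `x = y = 0` -/
noncomputable def rho : R →ₐ[ℂ] A := aeval ![0, 0, Polynomial.X, Polynomial.C Polynomial.X]

theorem rho_X0 : rho (X 0) = 0 := by simp [rho]
theorem rho_X1 : rho (X 1) = 0 := by simp [rho]
theorem rho_X2 : rho (X 2) = Polynomial.X := by simp [rho]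
theorem rho_X3 : rho (X 3) = Polynomial.C Polynomial.X := by simp [rho]

theorem rho_lin (v : V) : rho (lin v) =
    Polynomial.C (Polynomial.C ((v 2 : ℤ) : ℂ)) * Polynomial.X +
    Polynomial.C (Polynomial.C ((v 3 : ℤ) : ℂ)) * Polynomial.C Polynomial.X := by
  unfold lin
  simp only [Fin.sum_univ_four, map_add, map_mul, rho_X0, rho_X1, rho_X2, rho_X3, algHom_C, algA]
  ring

theorem lin_a1 : lin a1 = X 0 := by
  unfold lin a1; simp [Fin.sum_univ_four]

theorem lin_a2 : lin a2 = X 1 := by
  unfold lin a2; simp [Fin.sum_univ_four]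

/-- extension of functions from the line -/
noncomputable def jota : A →+* R :=
  Polynomial.eval₂RingHom (Polynomial.aeval (X 3 : R)).toRingHom (X 2)

theorem jota_X : jota (Polynomial.X) = X 2 := by simp [jota]
theorem jota_CX : jota (Polynomial.C Polynomial.X) = X 3 := by simp [jota]
theorem jota_CC (z : ℂ) : jota (Polynomial.C (Polynomial.C z)) = C z := by simp [jota]

theorem rho_jota (x : A) : rho (jota x) = x := by
  have : (rho.toRingHom.comp jota) = RingHom.id A := by
    apply Polynomial.ringHom_ext'
    · apply Polynomial.ringHom_ext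
      · intro a
        simp only [RingHom.comp_apply, RingHom.id_apply, jota_CC]
        exact algHom_C _ _
      · simp only [RingHom.comp_apply, RingHom.id_apply, jota_CX]
        exact rho_X3
    · simp only [RingHom.comp_apply, RingHom.id_apply, jota_X]
      exact rho_X2
  exact congrArg (fun f => f x) this

theorem sub_jota_mem (g : R) : g - jota (rho g) ∈ Pid a1 a2 := by
  rw [← Ideal.Quotient.eq]
  have : (Ideal.Quotient.mk (Pid a1 a2)) =
      (Ideal.Quotient.mk (Pid a1 a2)).comp (jota.comp rho.toRingHom) := by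
    apply MvPolynomial.ringHom_ext
    · intro a
      simp only [RingHom.comp_apply]
      congr 1
      have : rho.toRingHom (C a) = Polynomial.C (Polynomial.C a) := algHom_C _ _
      rw [this, jota_CC]
    · intro j
      simp only [RingHom.comp_apply]
      rw [Ideal.Quotient.eq]
      have h0 : rho.toRingHom (X 0) = 0 := rho_X0
      have h1 : rho.toRingHom (X 1) = 0 := rho_X1
      have h2 : rho.toRingHom (X 2) = Polynomial.X := rho_X2
      have h3 : rho.toRingHom (X 3) = Polynomial.C Polynomial.X := rho_X3
      fin_cases j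
      · simp only [Fin.zero_eta, h0, map_zero, sub_zero]
        rw [← lin_a1]; exact self_mem_left _ _
      · simp only [Fin.mk_one, h1, map_zero, sub_zero]
        rw [← lin_a2]; exact self_mem_right _ _
      · simp only [Fin.reduceFinMk, h2, jota_X, sub_self, Ideal.zero_mem]
      · simp only [Fin.reduceFinMk, h3, jota_CX, sub_self, Ideal.zero_mem]
  exact congrArg (fun f => f g) this

theorem mem_PL (g : R) : g ∈ Pid a1 a2 ↔ rho g = 0 := by
  constructor
  · intro hg
    rw [Pid, Ideal.mem_span_pair] at hg
    obtain ⟨u, v, huv⟩ := hg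
    rw [← huv, lin_a1, lin_a2]
    simp only [map_add, map_mul, rho_X0, rho_X1, mul_zero, add_zero]
  · intro hg
    have := sub_jota_mem g
    rwa [hg, map_zero, sub_zero] at this

theorem dvd_both {m n : ℕ} {f : A} (h1 : Polynomial.X ^ m ∣ f)
    (h2 : (Polynomial.C (Polynomial.X ^ n) : A) ∣ f) :
    (Polynomial.X ^ m * Polynomial.C (Polynomial.X ^ n) : A) ∣ f := by
  obtain ⟨h, rfl⟩ := h1
  refine mul_dvd_mul_left _ ?_
  rw [Polynomial.C_dvd_iff_dvd_coeff] at h2 ⊢
  intro i
  have := h2 (i + m)
  rwa [mul_comm, Polynomial.coeff_mul_X_pow] at this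

end Pool.Agent.W490.CMA
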