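import Mathlib
import Pool.Agent.W490.CMA.Rho

set_option autoImplicit false

/-!
# The general arrangement `G`: the coordinate ring of the union of the lines is Cohen-Macaulay
-/

namespace Pool.Agent.W490.CMA

open MvPolynomial

/-- a plane -/
def a3 : V := ![1, -1, 0, 0]
/-- a plane -/
def b1 : V := ![1, 0, -2, 0]
/-- a plane -/
def b2 : V := ![0, 1, -6, 0]
/-- a plane -/
def b3G : V := ![1, -2, -3, 0]
/-- a plane -/
def c1G : V := ![1, 0, -15, 0]
/-- a plane -/
def c2G : V := ![0, 2, 1, 0]
/-- a plane -/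
def c3G : V := ![-9, 5, -12, 0]
/-- a plane -/
def d0 : V := ![0, 0, 0, 1]
/-- a plane -/
def d1 : V := ![1, 0, 0, -1]
/-- a plane -/
def d2 : V := ![0, 1, 0, 1]
/-- a plane -/
def d3 : V := ![1, -1, 0, 1]
/-- an auxiliary plane -/
def mp : V := ![2, 1, -6, 0]
/-- an auxiliary plane -/
def e1 : V := ![3, -4, -6, 0]
/-- an auxiliary plane -/
def h1 : V := ![5, -4, -6, 0]
/-- an auxiliary plane -/
def h2 : V := ![3, -2, -6, 0]

/-- the lines in the plane `l` -/
def row (l : V) (hs : List V) : List (V × V) := hs.map fun h => (l, h)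

/-- a list of lines -/
def L1 : List (V × V) := row a3 [b2] ++ []
/-- a list of lines -/
def L2 : List (V × V) := row e1 [h1, h2] ++ L1
/-- a list of lines -/
def L3 : List (V × V) := row mp [b1, b2, b3G] ++ L2
/-- a list of lines -/
def L4 : List (V × V) := row d3 [a1, a2, b1, b2, b3G] ++ L3
/-- a list of lines -/
def L5 : List (V × V) := row d2 [d3, a1, a3, b1, b2, b3G] ++ L4
/-- a list of lines -/
def L6 : List (V × V) := row d1 [d2, d3, a2, a3, b1, b2, b3G] ++ L5
/-- a list of lines -/
def L7 : List (V × V) := row d0 [d1, d2, d3, b1, b2, b3G] ++ L6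
/-- a list of lines -/
def L8 : List (V × V) := (a1, a2) :: L7
/-- a list of lines -/
def L9 : List (V × V) := row c3G [a3, b1, a1, a2, d0, d1, d2, d3] ++ L8
/-- a list of lines -/
def L10 : List (V × V) := row c2G [a1, a2, a3, b1, c3G, d0, d1, d2, d3] ++ L9
/-- a list of lines -/
def L11 : List (V × V) := row c1G [a1, a2, a3, b2, c2G, c3G, d0, d1, d2, d3] ++ L10

theorem reg_L1 : Reg (II L1) := step a3 [b2] [] (by decide) (by decide +kernel) reg_top
theorem reg_L2 : Reg (II L2) := step e1 _ _ (by decide +kernel) (by decide +kernel) reg_L1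
theorem reg_L3 : Reg (II L3) := step mp _ _ (by decide +kernel) (by decide +kernel) reg_L2
theorem reg_L4 : Reg (II L4) := step d3 _ _ (by decide +kernel) (by decide +kernel) reg_L3
theorem reg_L5 : Reg (II L5) := step d2 _ _ (by decide +kernel) (by decide +kernel) reg_L4
theorem reg_L6 : Reg (II L6) := step d1 _ _ (by decide +kernel) (by decide +kernel) reg_L5
theorem reg_L7 : Reg (II L7) := step d0 _ _ (by decide +kernel) (by decide +kernel) reg_L6

theorem mem_L {L : List (V × V)} {g : R} (hg : g ∈ II L) (p q : V)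
    (h : ∃ pq ∈ L, inP pq.1 p q ∧ inP pq.2 p q ∧ nd p q) : g ∈ Pid p q := by
  obtain ⟨pq, hpq, h1, h2, h3⟩ := h
  exact Pid_le h3 h1 h2 ((mem_II L g).1 hg pq hpq)

theorem rho_of_linform {v : V} (h : v 3 = 0) (z : ℤ) (hz : v 2 = z) :
    rho (lin v) = Polynomial.C (Polynomial.C (z : ℂ)) * Polynomial.X := by
  rw [rho_lin, h, hz]; simp

theorem rho_of_linform' {v : V} (h : v 2 = 0) (z : ℤ) (hz : v 3 = z) :
    rho (lin v) = Polynomial.C (Polynomial.C (z : ℂ)) * Polynomial.C Polynomial.X := by
  rw [rho_lin, h, hz]; simp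

theorem X3_dvd {g : R} (hg : g ∈ II L7) : (Polynomial.X ^ 3 : A) ∣ rho g := by
  -- the three lines in the plane `mp`
  obtain ⟨u, v, huv⟩ := (planeIdeal mp [b1, b2, b3G] (by decide +kernel) g).1 (by
    intro h hh
    refine mem_L hg mp h ?_
    revert h
    decide +kernel)
  have key : ∀ p q : V, nd p q → ¬ inP mp p q → (∃ h ∈ [b1, b2, b3G], inP h p q) →
      g ∈ Pid p q → u ∈ Pid p q := by
    intro p q hnd h1 h2 h3
    obtain ⟨h, hh, hin⟩ := h2
    have h4 : lin mp * u ∈ Pid p q := by
      have : lin mp * u = g - prodL [b1, b2, b3G] * v := by rw [huv]; ring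
      rw [this]
      exact Ideal.sub_mem _ h3 (Ideal.mul_mem_right _ _ (prodL_mem hh ((lin_mem_Pid hnd h).2 hin)))
    exact ((Pid_prime hnd).mem_or_mem h4).resolve_left (fun h5 => h1 ((lin_mem_Pid hnd mp).1 h5))
  have hu1 : u ∈ Pid e1 h1 := key e1 h1 (by decide +kernel) (by decide +kernel) (by decide +kernel)
    (mem_L hg _ _ (by decide +kernel))
  have hu2 : u ∈ Pid e1 h2 := key e1 h2 (by decide +kernel) (by decide +kernel) (by decide +kernel)
    (mem_L hg _ _ (by decide +kernel))
  have hu3 : u ∈ Pid a3 b2 := key a3 b2 (by decide +kernel) (by decide +kernel) (by decide +kernel)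
    (mem_L hg _ _ (by decide +kernel))
  obtain ⟨u', v', huv'⟩ := (planeIdeal e1 [h1, h2] (by decide +kernel) u).1 (by
    intro h hh
    simp only [List.mem_cons, List.not_mem_nil, or_false] at hh
    rcases hh with rfl | rfl
    · exact hu1
    · exact hu2)
  have hnd : nd a3 b2 := by decide +kernel
  have hu' : u' ∈ Pid a3 b2 := by
    have h4 : lin e1 * u' ∈ Pid a3 b2 := by
      have : lin e1 * u' = u - prodL [h1, h2] * v' := by rw [huv']; ring
      rw [this]
      refine Ideal.sub_mem _ hu3 (Ideal.mul_mem_right _ _ (prodL_mem (h := h1) (by simp)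
        ((lin_mem_Pid hnd h1).2 (by decide +kernel))))
    exact ((Pid_prime hnd).mem_or_mem h4).resolve_left
      (fun h5 => absurd ((lin_mem_Pid hnd e1).1 h5) (by decide +kernel))
  rw [Pid, Ideal.mem_span_pair] at hu'
  obtain ⟨x, y, hxy⟩ := hu'
  have r1 : rho (lin a3) = 0 := by rw [rho_lin]; simp [a3]
  have r2 := rho_of_linform (v := b2) (by decide) (-6) (by decide)
  have r3 := rho_of_linform (v := mp) (by decide) (-6) (by decide)
  have r4 := rho_of_linform (v := e1) (by decide) (-6) (by decide)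
  have r5 := rho_of_linform (v := h1) (by decide) (-6) (by decide)
  have r6 := rho_of_linform (v := h2) (by decide) (-6) (by decide)
  have r7 := rho_of_linform (v := b1) (by decide) (-2) (by decide)
  have r8 := rho_of_linform (v := b3G) (by decide) (-3) (by decide)
  rw [huv, huv', ← hxy]
  simp only [prodL_cons, prodL_nil, map_add, map_mul, map_one, r1, r2, r3, r4, r5, r6, r7, r8]
  set Z : A := Polynomial.X
  refine ⟨Polynomial.C (Polynomial.C ((-6 : ℤ) : ℂ)) * (Polynomial.C (Polynomial.C ((-6 : ℤ) : ℂ)) *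
      (rho y * Polynomial.C (Polynomial.C ((-6 : ℤ) : ℂ))) +
      Polynomial.C (Polynomial.C ((-6 : ℤ) : ℂ)) * Polynomial.C (Polynomial.C ((-6 : ℤ) : ℂ)) *
        rho v') +
      Polynomial.C (Polynomial.C ((-2 : ℤ) : ℂ)) * Polynomial.C (Polynomial.C ((-6 : ℤ) : ℂ)) *
        Polynomial.C (Polynomial.C ((-3 : ℤ) : ℂ)) * rho v, ?_⟩
  ring

theorem C3_dvd {g : R} (hg : g ∈ II L7) :
    (Polynomial.C (Polynomial.X ^ 3) : A) ∣ rho g := by
  obtain ⟨u, v, huv⟩ := (planeIdeal a1 [d0, d2, d3] (by decide +kernel) g).1 (by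
    intro h hh
    refine mem_L hg a1 h ?_
    revert h
    decide +kernel)
  have r1 : rho (lin a1) = 0 := by rw [rho_lin]; simp [a1]
  have r2 := rho_of_linform' (v := d0) (by decide) 1 (by decide)
  have r3 := rho_of_linform' (v := d2) (by decide) 1 (by decide)
  have r4 := rho_of_linform' (v := d3) (by decide) 1 (by decide)
  rw [huv]
  simp only [prodL_cons, prodL_nil, map_add, map_mul, map_one, r1, r2, r3, r4]
  refine ⟨rho v, ?_⟩
  simp only [Int.cast_one, map_one, map_pow]
  ring

theorem reg_L8 : Reg (II L8) := by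
  have hnd : nd a1 a2 := by decide +kernel
  have e : II L8 = Pid a1 a2 ⊓ II L7 := rfl
  rw [e]
  refine reg_line (Pid_prime hnd) (prodL [d1, d2, d3, b1, b2, b3G]) ?_ ?_ ?_ reg_L7 (reg_Pid hnd)
  · rw [mem_II]
    intro pq hpq
    have : nd pq.1 pq.2 ∧ ∃ h ∈ [d1, d2, d3, b1, b2, b3G], inP h pq.1 pq.2 := by
      revert pq
      decide +kernel
    obtain ⟨hnd', h, hh, hin⟩ := this
    exact prodL_mem hh ((lin_mem_Pid hnd' h).2 hin)
  · have r : rho (prodL [d1, d2, d3, b1, b2, b3G]) =
        Polynomial.C (Polynomial.C (36 : ℂ)) *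
          (Polynomial.X ^ 3 * Polynomial.C (Polynomial.X ^ 3)) := by
      have r1 := rho_of_linform' (v := d1) (by decide) (-1) (by decide)
      have r3 := rho_of_linform' (v := d2) (by decide) 1 (by decide)
      have r4 := rho_of_linform' (v := d3) (by decide) 1 (by decide)
      have r7 := rho_of_linform (v := b1) (by decide) (-2) (by decide)
      have r2 := rho_of_linform (v := b2) (by decide) (-6) (by decide)
      have r8 := rho_of_linform (v := b3G) (by decide) (-3) (by decide)
      simp only [prodL_cons, prodL_nil, map_mul, map_one, r1, r2, r3, r4, r7, r8]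
      have : (36 : ℂ) = ((-1 : ℤ) : ℂ) * ((1 : ℤ) : ℂ) * ((1 : ℤ) : ℂ) * ((-2 : ℤ) : ℂ) *
        ((-6 : ℤ) : ℂ) * ((-3 : ℤ) : ℂ) := by push_cast; norm_num
      rw [this]
      simp only [map_mul, map_pow]
      ring
    rw [mem_PL, r]
    simp
  · intro g hg
    have r : rho (prodL [d1, d2, d3, b1, b2, b3G]) =
        Polynomial.C (Polynomial.C (36 : ℂ)) *
          (Polynomial.X ^ 3 * Polynomial.C (Polynomial.X ^ 3)) := by
      have r1 := rho_of_linform' (v := d1) (by decide) (-1) (by decide)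
      have r3 := rho_of_linform' (v := d2) (by decide) 1 (by decide)
      have r4 := rho_of_linform' (v := d3) (by decide) 1 (by decide)
      have r7 := rho_of_linform (v := b1) (by decide) (-2) (by decide)
      have r2 := rho_of_linform (v := b2) (by decide) (-6) (by decide)
      have r8 := rho_of_linform (v := b3G) (by decide) (-3) (by decide)
      simp only [prodL_cons, prodL_nil, map_mul, map_one, r1, r2, r3, r4, r7, r8]
      have : (36 : ℂ) = ((-1 : ℤ) : ℂ) * ((1 : ℤ) : ℂ) * ((1 : ℤ) : ℂ) * ((-2 : ℤ) : ℂ) *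
        ((-6 : ℤ) : ℂ) * ((-3 : ℤ) : ℂ) := by push_cast; norm_num
      rw [this]
      simp only [map_mul, map_pow]
      ring
    obtain ⟨w, hw⟩ := dvd_both (X3_dvd hg) (C3_dvd hg)
    refine ⟨jota (Polynomial.C (Polynomial.C (36 : ℂ)⁻¹) * w), ?_⟩
    rw [mem_PL, map_sub, map_mul, rho_jota, r, hw]
    have : (Polynomial.C (Polynomial.C (36 : ℂ)) * Polynomial.C (Polynomial.C (36 : ℂ)⁻¹) : A) = 1 := by
      rw [← map_mul, ← map_mul]
      norm_num
    linear_combination (-(Polynomial.X ^ 3 * Polynomial.C (Polynomial.X ^ 3) * w) : A) * this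

theorem ndL_L8 : ndL L8 := by decide +kernel
theorem reg_L9 : Reg (II L9) := step c3G _ _ (by decide +kernel) (by decide +kernel) reg_L8
theorem reg_L10 : Reg (II L10) := step c2G _ _ (by decide +kernel) (by decide +kernel) reg_L9
theorem reg_L11 : Reg (II L11) := step c1G _ _ (by decide +kernel) (by decide +kernel) reg_L10

end Pool.Agent.W490.CMA
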