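import Mathlib
import Pool.Agent.W490.CMA.GChain
import Pool.Agent.W490.CMA.CMring

set_option autoImplicit false

/-!
# The special arrangement `F`: the coordinate ring of the union of the lines is not Cohen-Macaulay
-/

namespace Pool.Agent.W490.CMA

open MvPolynomial

/-- a plane -/
def b3F : V := ![1, -1, -3, 0]
/-- a plane -/
def c1F : V := ![1, 0, -9, 0]
/-- a plane -/
def c2F : V := ![0, 1, 1, 0]
/-- a plane -/
def c3F : V := ![1, -1, 4, 0]
/-- an auxiliary plane -/
def mpp : V := ![3, -2, -6, 0]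

/-- the lines of the special arrangement different from `x = y = 0` -/
def LF0 : List (V × V) :=
  row b1 [a1, a2, a3] ++ row b2 [a1, a2, a3, b1] ++ row b3F [a1, a2, a3, b1, b2] ++
  row c1F [a1, a2, a3, b1, b2, b3F] ++ row c2F [a1, a2, a3, b1, b2, b3F, c1F] ++
  row c3F [a1, a2, a3, b1, b2, b3F, c1F, c2F] ++
  row d0 [a1, a2, a3, b1, b2, b3F, c1F, c2F, c3F] ++
  row d1 [a1, a2, a3, b1, b2, b3F, c1F, c2F, c3F, d0] ++
  row d2 [a1, a2, a3, b1, b2, b3F, c1F, c2F, c3F, d0, d1] ++
  row d3 [a1, a2, a3, b1, b2, b3F, c1F, c2F, c3F, d0, d1, d2]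

/-- the lines of the special arrangement -/
def LF : List (V × V) := (a1, a2) :: LF0

theorem ndL_LF : ndL LF := by decide +kernel

theorem ndL_LF0 : ndL LF0 := fun pq h => ndL_LF pq (List.mem_cons_of_mem _ h)

/-- the first product -/
noncomputable def hz : R := prodL [b1, b2, b3F, c1F, c2F, c3F, d1, d2, d3]
/-- the second product -/
noncomputable def hw : R := prodL [c1F, c2F, c3F, mp, mpp, d0, d1, d2, d3]

theorem hz_mem : hz ∈ II LF0 := by
  rw [mem_II]
  intro pq hpq
  have hnd := ndL_LF0 pq hpq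
  have : ∃ h ∈ [b1, b2, b3F, c1F, c2F, c3F, d1, d2, d3], inP h pq.1 pq.2 := by
    revert pq
    decide +kernel
  obtain ⟨h, hh, hin⟩ := this
  exact prodL_mem hh ((lin_mem_Pid hnd h).2 hin)

theorem hw_mem : hw ∈ II LF0 := by
  rw [mem_II]
  intro pq hpq
  have hnd := ndL_LF0 pq hpq
  have : ∃ h ∈ [c1F, c2F, c3F, mp, mpp, d0, d1, d2, d3], inP h pq.1 pq.2 := by
    revert pq
    decide +kernel
  obtain ⟨h, hh, hin⟩ := this
  exact prodL_mem hh ((lin_mem_Pid hnd h).2 hin)

theorem rho_hz : rho hz = Polynomial.C (Polynomial.C (-1296 : ℂ)) *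
    (Polynomial.X ^ 6 * Polynomial.C (Polynomial.X ^ 3)) := by
  have r1 := rho_of_linform' (v := d1) (by decide) (-1) (by decide)
  have r3 := rho_of_linform' (v := d2) (by decide) 1 (by decide)
  have r4 := rho_of_linform' (v := d3) (by decide) 1 (by decide)
  have r7 := rho_of_linform (v := b1) (by decide) (-2) (by decide)
  have r2 := rho_of_linform (v := b2) (by decide) (-6) (by decide)
  have r8 := rho_of_linform (v := b3F) (by decide) (-3) (by decide)
  have q1 := rho_of_linform (v := c1F) (by decide) (-9) (by decide)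
  have q2 := rho_of_linform (v := c2F) (by decide) 1 (by decide)
  have q3 := rho_of_linform (v := c3F) (by decide) 4 (by decide)
  simp only [hz, prodL_cons, prodL_nil, map_mul, map_one, r1, r2, r3, r4, r7, r8, q1, q2, q3]
  have : (-1296 : ℂ) = ((-1 : ℤ) : ℂ) * ((1 : ℤ) : ℂ) * ((1 : ℤ) : ℂ) * ((-2 : ℤ) : ℂ) *
    ((-6 : ℤ) : ℂ) * ((-3 : ℤ) : ℂ) * ((-9 : ℤ) : ℂ) * ((1 : ℤ) : ℂ) * ((4 : ℤ) : ℂ) := by
    push_cast; norm_num
  rw [this]
  simp only [map_mul, map_pow]
  ring

theorem rho_hw : rho hw = Polynomial.C (Polynomial.C (1296 : ℂ)) *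
    (Polynomial.X ^ 5 * Polynomial.C (Polynomial.X ^ 4)) := by
  have r0 := rho_of_linform' (v := d0) (by decide) 1 (by decide)
  have r1 := rho_of_linform' (v := d1) (by decide) (-1) (by decide)
  have r3 := rho_of_linform' (v := d2) (by decide) 1 (by decide)
  have r4 := rho_of_linform' (v := d3) (by decide) 1 (by decide)
  have r7 := rho_of_linform (v := mp) (by decide) (-6) (by decide)
  have r2 := rho_of_linform (v := mpp) (by decide) (-6) (by decide)
  have q1 := rho_of_linform (v := c1F) (by decide) (-9) (by decide)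
  have q2 := rho_of_linform (v := c2F) (by decide) 1 (by decide)
  have q3 := rho_of_linform (v := c3F) (by decide) 4 (by decide)
  simp only [hw, prodL_cons, prodL_nil, map_mul, map_one, r0, r1, r2, r3, r4, r7, q1, q2, q3]
  have : (1296 : ℂ) = ((1 : ℤ) : ℂ) * ((-1 : ℤ) : ℂ) * ((1 : ℤ) : ℂ) * ((1 : ℤ) : ℂ) *
    ((-6 : ℤ) : ℂ) * ((-6 : ℤ) : ℂ) * ((-9 : ℤ) : ℂ) * ((1 : ℤ) : ℂ) * ((4 : ℤ) : ℂ) := by
    push_cast; norm_num
  rw [this]
  simp only [map_mul, map_pow]
  ring

/-- the ideal of the lines `b = d = 0` is a complete intersection -/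
theorem ci (Ds : List V) (Bs : List V) (h1 : ∀ b ∈ Bs, okP b Ds)
    (h2 : Bs.Pairwise fun b b' => ∀ d ∈ Ds, ¬ inP b b' d) (g : R)
    (hg : ∀ b ∈ Bs, ∀ d ∈ Ds, g ∈ Pid b d) : ∃ u v, g = prodL Bs * u + prodL Ds * v := by
  induction Bs generalizing g with
  | nil => exact ⟨g, 0, by rw [prodL_nil]; ring⟩
  | cons b Bs ih =>
    obtain ⟨u, v, huv⟩ := (planeIdeal b Ds (h1 b List.mem_cons_self) g).1 (hg b List.mem_cons_self)
    have hp := List.pairwise_cons.1 h2
    obtain ⟨u', v', huv'⟩ := ih (fun b' hb' => h1 b' (List.mem_cons_of_mem _ hb')) hp.2 u (by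
      intro b' hb' d hd
      have hnd := (h1 b' (List.mem_cons_of_mem _ hb')).1 d hd
      have h4 : lin b * u ∈ Pid b' d := by
        have : lin b * u = g - prodL Ds * v := by rw [huv]; ring
        rw [this]
        exact Ideal.sub_mem _ (hg b' (List.mem_cons_of_mem _ hb') d hd)
          (Ideal.mul_mem_right _ _ (prodL_mem hd (self_mem_right _ _)))
      exact ((Pid_prime hnd).mem_or_mem h4).resolve_left
        (fun h5 => hp.1 b' hb' d hd ((lin_mem_Pid hnd b).1 h5)))
    exact ⟨u', lin b * v' + v, by rw [huv, huv', prodL_cons]; ring⟩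

theorem rho_LF0 {g : R} (hg : g ∈ II LF0) : ∃ u v : A, rho g =
    Polynomial.X ^ 6 * u + Polynomial.C (Polynomial.X ^ 4) * v := by
  obtain ⟨u, v, huv⟩ := ci [d0, d1, d2, d3] [b1, b2, b3F, c1F, c2F, c3F] (by decide +kernel)
    (by decide +kernel) g (by
      intro b hb d hd
      refine mem_L hg b d ?_
      revert b d
      decide +kernel)
  have r0 := rho_of_linform' (v := d0) (by decide) 1 (by decide)
  have r1 := rho_of_linform' (v := d1) (by decide) (-1) (by decide)
  have r3 := rho_of_linform' (v := d2) (by decide) 1 (by decide)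
  have r4 := rho_of_linform' (v := d3) (by decide) 1 (by decide)
  have r7 := rho_of_linform (v := b1) (by decide) (-2) (by decide)
  have r2 := rho_of_linform (v := b2) (by decide) (-6) (by decide)
  have r8 := rho_of_linform (v := b3F) (by decide) (-3) (by decide)
  have q1 := rho_of_linform (v := c1F) (by decide) (-9) (by decide)
  have q2 := rho_of_linform (v := c2F) (by decide) 1 (by decide)
  have q3 := rho_of_linform (v := c3F) (by decide) 4 (by decide)
  rw [huv]
  simp only [prodL_cons, prodL_nil, map_add, map_mul, map_one, r0, r1, r2, r3, r4, r7, r8, q1, q2, q3,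
    map_pow]
  refine ⟨Polynomial.C (Polynomial.C ((-2 : ℤ) : ℂ)) * Polynomial.C (Polynomial.C ((-6 : ℤ) : ℂ)) *
    Polynomial.C (Polynomial.C ((-3 : ℤ) : ℂ)) * Polynomial.C (Polynomial.C ((-9 : ℤ) : ℂ)) *
    Polynomial.C (Polynomial.C ((1 : ℤ) : ℂ)) * Polynomial.C (Polynomial.C ((4 : ℤ) : ℂ)) * rho u,
    Polynomial.C (Polynomial.C ((1 : ℤ) : ℂ)) * Polynomial.C (Polynomial.C ((-1 : ℤ) : ℂ)) *
    Polynomial.C (Polynomial.C ((1 : ℤ) : ℂ)) * Polynomial.C (Polynomial.C ((1 : ℤ) : ℂ)) * rho v, ?_⟩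
  ring

/-- the socle element -/
noncomputable def g0 : A := Polynomial.X ^ 5 * Polynomial.C (Polynomial.X ^ 3)

theorem coeff_rho (r : R) : ((rho r).coeff 0).coeff 0 = constantCoeff r := by
  have : ((Polynomial.constantCoeff.comp (Polynomial.constantCoeff)).comp rho.toRingHom) =
      (constantCoeff : R →+* ℂ) := by
    apply MvPolynomial.ringHom_ext
    · intro a
      have : rho.toRingHom (C a) = Polynomial.C (Polynomial.C a) := algHom_C _ _
      simp only [RingHom.comp_apply, this]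
      simp
    · intro j
      fin_cases j <;> simp [rho_X0, rho_X1, rho_X2, rho_X3]
  exact congrArg (fun f => f r) this

theorem exists_h {r : R} (hr : constantCoeff r = 0) : ∃ h ∈ II LF0, rho h = g0 * rho r := by
  -- `r` is congruent to `c z + d w` modulo `(x, y)`
  have h1 := sub_jota_mem r
  rw [mem_PL, map_sub, sub_eq_zero] at h1
  -- decompose `rho r`
  set f := rho r with hf
  have hf0 : (f.coeff 0).coeff 0 = 0 := by
    rw [hf, coeff_rho, hr]
  obtain ⟨c, hc⟩ : (Polynomial.X : A) ∣ f - Polynomial.C (f.coeff 0) := by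
    rw [Polynomial.X_dvd_iff]; simp
  obtain ⟨d, hd⟩ : (Polynomial.X : Polynomial ℂ) ∣ f.coeff 0 := Polynomial.X_dvd_iff.2 hf0
  have hcd : f = Polynomial.X * c + Polynomial.C Polynomial.X * Polynomial.C d := by
    rw [← hc, ← map_mul, ← hd]; ring
  refine ⟨C (-1296 : ℂ)⁻¹ * jota c * hz + C (1296 : ℂ)⁻¹ * jota (Polynomial.C d) * hw,
    Ideal.add_mem _ (Ideal.mul_mem_left _ _ hz_mem) (Ideal.mul_mem_left _ _ hw_mem), ?_⟩
  rw [map_add, map_mul, map_mul, map_mul, map_mul, rho_jota, rho_jota, rho_hz, rho_hw, hcd, g0]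
  have e1 : (rho (C (-1296 : ℂ)⁻¹) * Polynomial.C (Polynomial.C (-1296 : ℂ)) : A) = 1 := by
    have : rho (C (-1296 : ℂ)⁻¹) = Polynomial.C (Polynomial.C (-1296 : ℂ)⁻¹) := algHom_C _ _
    rw [this, ← map_mul, ← map_mul]
    norm_num
  have e2 : (rho (C (1296 : ℂ)⁻¹) * Polynomial.C (Polynomial.C (1296 : ℂ)) : A) = 1 := by
    have : rho (C (1296 : ℂ)⁻¹) = Polynomial.C (Polynomial.C (1296 : ℂ)⁻¹) := algHom_C _ _
    rw [this, ← map_mul, ← map_mul]
    norm_num
  simp only [map_pow]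
  linear_combination (c * Polynomial.X ^ 6 * (Polynomial.C Polynomial.X) ^ 3 : A) * e1 +
    (Polynomial.C d * Polynomial.X ^ 5 * (Polynomial.C Polynomial.X) ^ 4 : A) * e2

end Pool.Agent.W490.CMA
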