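import Mathlib
import Pool.Agent.W490.CMA.NonCM

set_option autoImplicit false

/-!
# The special arrangement `F`: the localization at the origin is not Cohen-Macaulay
-/

namespace Pool.Agent.W490.CMA

open MvPolynomial

theorem same_line : ∀ pq ∈ LF, ∀ pq' ∈ LF, inP pq.1 pq'.1 pq'.2 → inP pq.2 pq'.1 pq'.2 →
    inP pq'.1 pq.1 pq.2 ∧ inP pq'.2 pq.1 pq.2 := by decide +kernel

/-- an element of the ideals of all lines but one -/
theorem exists_sep {pq0 : V × V} (h0 : pq0 ∈ LF) (M : List (V × V)) (hM : ∀ pq ∈ M, pq ∈ LF) :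
    ∃ y : R, y ∉ Pid pq0.1 pq0.2 ∧ ∀ pq ∈ M, y ∈ Pid pq.1 pq.2 ∨ Pid pq0.1 pq0.2 ≤ Pid pq.1 pq.2 := by
  have hnd0 := ndL_LF pq0 h0
  have hpr := Pid_prime hnd0
  induction M with
  | nil => exact ⟨1, fun h => hpr.ne_top ((Ideal.eq_top_iff_one _).2 h), by simp⟩
  | cons pq M ih =>
    obtain ⟨y, hy, hyM⟩ := ih (fun x hx => hM x (List.mem_cons_of_mem _ hx))
    have hpq := hM pq List.mem_cons_self
    by_cases h1 : inP pq.1 pq0.1 pq0.2
    · by_cases h2 : inP pq.2 pq0.1 pq0.2
      · refine ⟨y, hy, ?_⟩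
        intro pq' hpq'
        rcases List.mem_cons.1 hpq' with rfl | hpq'
        · right
          obtain ⟨h3, h4⟩ := same_line pq' hpq pq0 h0 h1 h2
          exact Pid_le (ndL_LF pq' hpq) h3 h4
        · exact hyM pq' hpq'
      · refine ⟨lin pq.2 * y, fun h => ?_, ?_⟩
        · rcases hpr.mem_or_mem h with h | h
          · exact h2 ((lin_mem_Pid hnd0 _).1 h)
          · exact hy h
        · intro pq' hpq'
          rcases List.mem_cons.1 hpq' with rfl | hpq'
          · exact Or.inl (Ideal.mul_mem_right _ _ (self_mem_right _ _))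
          · exact (hyM pq' hpq').imp_left fun h => Ideal.mul_mem_left _ _ h
    · refine ⟨lin pq.1 * y, fun h => ?_, ?_⟩
      · rcases hpr.mem_or_mem h with h | h
        · exact h1 ((lin_mem_Pid hnd0 _).1 h)
        · exact hy h
      · intro pq' hpq'
        rcases List.mem_cons.1 hpq' with rfl | hpq'
        · exact Or.inl (Ideal.mul_mem_right _ _ (self_mem_left _ _))
        · exact (hyM pq' hpq').imp_left fun h => Ideal.mul_mem_left _ _ h

theorem Pid_le_ker (p q : V) : Pid p q ≤ RingHom.ker (constantCoeff : R →+* ℂ) := by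
  rw [Pid, Ideal.span_le]
  have : ∀ v : V, constantCoeff (lin v) = 0 := by
    intro v
    unfold lin
    simp
  intro x hx
  rcases hx with rfl | hx
  · exact this p
  · rw [Set.mem_singleton_iff] at hx
    subst hx
    exact this q

theorem II_LF : II LF = Pid a1 a2 ⊓ II LF0 := rfl

theorem mem_LF (g : R) : g ∈ II LF ↔ rho g = 0 ∧ g ∈ II LF0 := by
  rw [II_LF, Ideal.mem_inf, mem_PL]

/-- the point `0` of the affine cone over the union of the lines -/
noncomputable def ev0 : R ⧸ II LF →+* ℂ :=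
  Ideal.Quotient.lift (II LF) constantCoeff (fun _ ha => Pid_le_ker a1 a2 ha.1)

/-- restriction to the line `x = y = 0` -/
noncomputable def evL : R ⧸ II LF →+* A :=
  Ideal.Quotient.lift (II LF) rho.toRingHom (fun a ha => (mem_PL a).1 ha.1)

/-- restriction to the point `x = y = z = 0` (a line of affine space) -/
noncomputable def evP : R ⧸ II LF →+* Polynomial ℂ :=
  (Polynomial.constantCoeff (R := Polynomial ℂ)).comp evL

theorem ev0_mk (g : R) : ev0 (Ideal.Quotient.mk _ g) = constantCoeff g := rfl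
theorem evL_mk (g : R) : evL (Ideal.Quotient.mk _ g) = rho g := rfl
theorem evP_mk (g : R) : evP (Ideal.Quotient.mk _ g) = (rho g).coeff 0 := rfl

/-- the irrelevant ideal -/
noncomputable def pF : Ideal (R ⧸ II LF) := RingHom.ker ev0

instance : pF.IsPrime := RingHom.ker_isPrime _

theorem height_pF : 2 ≤ pF.height := by
  have hP0 : (RingHom.ker evL).IsPrime := RingHom.ker_isPrime _
  have hP1 : (RingHom.ker evP).IsPrime := RingHom.ker_isPrime _
  have h01 : RingHom.ker evL < RingHom.ker evP := by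
    rw [SetLike.lt_iff_le_and_exists]
    refine ⟨fun x hx => ?_, Ideal.Quotient.mk _ (X 2), ?_, ?_⟩
    · rw [RingHom.mem_ker] at hx ⊢
      simp [evP, hx]
    · rw [RingHom.mem_ker, evP_mk, rho_X2]; simp
    · rw [RingHom.mem_ker, evL_mk, rho_X2]
      exact Polynomial.X_ne_zero
  have h12 : RingHom.ker evP < pF := by
    rw [SetLike.lt_iff_le_and_exists]
    refine ⟨fun x hx => ?_, Ideal.Quotient.mk _ (X 3), ?_, ?_⟩
    · obtain ⟨x, rfl⟩ := Ideal.Quotient.mk_surjective x
      rw [RingHom.mem_ker, evP_mk] at hx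
      change ev0 _ = 0
      rw [ev0_mk, ← coeff_rho, hx]
      simp
    · change ev0 _ = 0
      rw [ev0_mk]; simp
    · rw [RingHom.mem_ker, evP_mk, rho_X3]
      simp
  have h1 := Ideal.height_add_one_le_of_lt_of_isPrime h01
  have h2 := Ideal.height_add_one_le_of_lt_of_isPrime h12
  calc (2 : ℕ∞) = 0 + 1 + 1 := by norm_num
    _ ≤ (RingHom.ker evL).height + 1 + 1 := by gcongr; exact zero_le
    _ ≤ (RingHom.ker evP).height + 1 := by gcongr
    _ ≤ pF.height := h2

/-- there are no regular sequences of length two -/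
theorem core {S : Type} [CommRing S] [IsLocalRing S] [Algebra (R ⧸ II LF) S]
    [IsLocalization.AtPrime S pF] (x y : S) (hxm : x ∈ IsLocalRing.maximalIdeal S)
    (hym : y ∈ IsLocalRing.maximalIdeal S) (hx : IsSMulRegular S x)
    (hy : IsSMulRegular (QuotSMulTop x S) y) : False := by
  -- numerators
  have hnum : ∀ z : S, z ∈ IsLocalRing.maximalIdeal S → ∃ (r u : R), constantCoeff r = 0 ∧
      constantCoeff u ≠ 0 ∧ z * algebraMap (R ⧸ II LF) S (Ideal.Quotient.mk _ u) =
        algebraMap (R ⧸ II LF) S (Ideal.Quotient.mk _ r) := by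
    intro z hz
    obtain ⟨r, u, rfl⟩ := IsLocalization.exists_mk'_eq pF.primeCompl z
    have hr : r ∈ pF := (IsLocalization.AtPrime.mk'_mem_maximal_iff S pF r u).1 hz
    obtain ⟨r, rfl⟩ := Ideal.Quotient.mk_surjective r
    obtain ⟨u, hu⟩ := u
    obtain ⟨u, rfl⟩ := Ideal.Quotient.mk_surjective u
    exact ⟨r, u, hr, hu, IsLocalization.mk'_spec _ _ _⟩
  have hunit : ∀ u : R, constantCoeff u ≠ 0 →
      IsUnit (algebraMap (R ⧸ II LF) S (Ideal.Quotient.mk _ u)) := by
    intro u hu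
    exact IsLocalization.map_units S (⟨Ideal.Quotient.mk _ u, hu⟩ : pF.primeCompl)
  have hzero : ∀ g : R, algebraMap (R ⧸ II LF) S (Ideal.Quotient.mk _ g) = 0 →
      ∃ w : R, constantCoeff w ≠ 0 ∧ w * g ∈ II LF := by
    intro g hg
    obtain ⟨⟨w, hw⟩, hwg⟩ := (IsLocalization.map_eq_zero_iff pF.primeCompl S _).1 hg
    obtain ⟨w, rfl⟩ := Ideal.Quotient.mk_surjective w
    refine ⟨w, hw, ?_⟩
    rw [← Ideal.Quotient.eq_zero_iff_mem, map_mul]
    exact hwg
  obtain ⟨rx, u, hrx, hu, hxu⟩ := hnum x hxm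
  obtain ⟨ry, v, hry, hv, hyv⟩ := hnum y hym
  obtain ⟨a, ha, hra⟩ := exists_h hrx
  obtain ⟨b, hb, hrb⟩ := exists_h hry
  have hab : ry * a - rx * b ∈ II LF := by
    rw [mem_LF]
    refine ⟨?_, Ideal.sub_mem _ (Ideal.mul_mem_left _ _ ha) (Ideal.mul_mem_left _ _ hb)⟩
    rw [map_sub, map_mul, map_mul, hra, hrb]
    ring
  set φ := (algebraMap (R ⧸ II LF) S).comp (Ideal.Quotient.mk (II LF)) with hφ
  have e1 : φ ry * φ a = φ rx * φ b := by
    rw [← map_mul, ← map_mul, ← sub_eq_zero, ← map_sub]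
    change algebraMap (R ⧸ II LF) S (Ideal.Quotient.mk _ _) = 0
    rw [Ideal.Quotient.eq_zero_iff_mem.2 hab, map_zero]
  have hxu' : x * φ u = φ rx := hxu
  have hyv' : y * φ v = φ ry := hyv
  -- `φ v * φ a` is divisible by `x`
  have e2 : ∃ c : S, φ v * φ a = x * c := by
    have e3 : y * (φ v * φ a) = x * (φ u * φ b) := by
      rw [← mul_assoc, hyv', e1, ← hxu']; ring
    have e4 : y • (Submodule.Quotient.mk (φ v * φ a) : QuotSMulTop x S) = 0 := by
      rw [← Submodule.Quotient.mk_smul, Submodule.Quotient.mk_eq_zero,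
        Submodule.mem_smul_pointwise_iff_exists]
      exact ⟨φ u * φ b, trivial, e3.symm⟩
    have e5 : (Submodule.Quotient.mk (φ v * φ a) : QuotSMulTop x S) = 0 := by
      apply hy
      simp only
      rw [e4, smul_zero]
    rw [Submodule.Quotient.mk_eq_zero, Submodule.mem_smul_pointwise_iff_exists] at e5
    obtain ⟨c, -, hc⟩ := e5
    exact ⟨c, hc.symm⟩
  obtain ⟨c, hc⟩ := e2
  obtain ⟨c0, t, hct⟩ := IsLocalization.exists_mk'_eq pF.primeCompl c
  obtain ⟨c0, rfl⟩ := Ideal.Quotient.mk_surjective c0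
  obtain ⟨t, ht⟩ := t
  obtain ⟨t, rfl⟩ := Ideal.Quotient.mk_surjective t
  have ht' : constantCoeff t ≠ 0 := ht
  have e6 : c * φ t = φ c0 := by
    rw [← hct]
    exact IsLocalization.mk'_spec _ _ _
  have e7 : φ (u * v * t * a - rx * c0) = 0 := by
    rw [map_sub, map_mul, map_mul, map_mul, map_mul]
    linear_combination φ u * φ t * hc + (φ t * c) * hxu' + φ rx * e6
  obtain ⟨w, hw, hwm⟩ := hzero _ e7
  -- `rx` is not in the ideal of any of the lines
  have hrxP : ∀ pq ∈ LF, rx ∉ Pid pq.1 pq.2 := by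
    intro pq hpq hmem
    obtain ⟨y0, hy0, hy1⟩ := exists_sep hpq LF (fun _ h => h)
    have h3 : rx * y0 ∈ II LF := by
      rw [mem_II]
      intro pq' hpq'
      rcases hy1 pq' hpq' with h | h
      · exact Ideal.mul_mem_left _ _ h
      · exact Ideal.mul_mem_right _ _ (h hmem)
    have h4 : x * φ y0 = 0 := by
      have h5 : φ u * (x * φ y0) = 0 := by
        rw [← mul_assoc, mul_comm (φ u), hxu', ← map_mul]
        change algebraMap (R ⧸ II LF) S (Ideal.Quotient.mk _ _) = 0
        rw [Ideal.Quotient.eq_zero_iff_mem.2 h3, map_zero]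
      exact (hunit u hu).mul_right_eq_zero.1 h5
    have h5 : φ y0 = 0 := by
      apply hx
      simp only [smul_eq_mul]
      rw [h4, mul_zero]
    obtain ⟨w', hw', hwm'⟩ := hzero _ h5
    have hpr := Pid_prime (ndL_LF pq hpq)
    rcases hpr.mem_or_mem ((mem_II LF _).1 hwm' pq hpq) with h6 | h6
    · exact hw' (Pid_le_ker _ _ h6)
    · exact hy0 h6
  have hc1 : w * c0 ∈ II LF0 := by
    rw [mem_II]
    intro pq hpq
    have hpqF : pq ∈ LF := List.mem_cons_of_mem _ hpq
    have h3 := (mem_II LF _).1 hwm pq hpqF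
    have h4 : rx * (w * c0) ∈ Pid pq.1 pq.2 := by
      have : rx * (w * c0) = w * (u * v * t) * a - w * (u * v * t * a - rx * c0) := by ring
      rw [this]
      exact Ideal.sub_mem _ (Ideal.mul_mem_left _ _ ((mem_II _ _).1 ha pq hpq)) h3
    exact ((Pid_prime (ndL_LF pq hpqF)).mem_or_mem h4).resolve_left (hrxP pq hpqF)
  have hrho : rho (w * c0) = rho (w * (u * v * t)) * g0 := by
    have h3 := ((mem_LF _).1 hwm).1
    have h4 : rho rx ≠ 0 := fun h => hrxP (a1, a2) (by simp [LF]) ((mem_PL rx).2 h)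
    have h5 : rho rx * (rho (w * c0) - rho (w * (u * v * t)) * g0) = 0 := by
      simp only [map_mul, map_sub, hra] at h3 ⊢
      linear_combination -h3
    exact sub_eq_zero.1 ((mul_eq_zero.1 h5).resolve_left h4)
  obtain ⟨U, W, hUW⟩ := rho_LF0 hc1
  rw [hrho] at hUW
  have hcoef := congrArg (fun f : A => (f.coeff 5).coeff 3) hUW
  simp only [g0] at hcoef
  have hl : ((rho (w * (u * v * t)) * (Polynomial.X ^ 5 * Polynomial.C (Polynomial.X ^ 3)) : A).coeff 5).coeff 3
      = constantCoeff (w * (u * v * t)) := by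
    rw [← coeff_rho]
    have : (rho (w * (u * v * t)) * (Polynomial.X ^ 5 * Polynomial.C (Polynomial.X ^ 3)) : A) =
        (rho (w * (u * v * t)) * Polynomial.C (Polynomial.X ^ 3)) * Polynomial.X ^ 5 := by ring
    rw [this, Polynomial.coeff_mul_X_pow', if_pos le_rfl, Polynomial.coeff_mul_C,
      Polynomial.coeff_mul_X_pow', if_pos le_rfl]
  have hr : ((Polynomial.X ^ 6 * U + Polynomial.C (Polynomial.X ^ 4) * W : A).coeff 5).coeff 3 = 0 := by
    rw [Polynomial.coeff_add, Polynomial.coeff_C_mul, mul_comm (Polynomial.X ^ 6) U,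
      Polynomial.coeff_mul_X_pow', if_neg (by norm_num), zero_add, mul_comm,
      Polynomial.coeff_mul_X_pow', if_neg (by norm_num)]
  rw [hl, hr, map_mul, map_mul, map_mul] at hcoef
  exact mul_ne_zero hw (mul_ne_zero (mul_ne_zero hu hv) ht') hcoef

theorem not_isCM_F : ¬ IsCM (R ⧸ II LF) := by
  intro hCM
  obtain ⟨rs, hmax, hreg, hlen⟩ := hCM pF
  have h2 : 2 ≤ rs.length := by
    have hlen' := hlen.trans (IsLocalization.AtPrime.ringKrullDim_eq_height pF _)
    have h' : ((2 : ℕ∞) : WithBot ℕ∞) ≤ (rs.length : WithBot ℕ∞) := by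
      rw [hlen']
      exact WithBot.coe_le_coe.2 height_pF
    have h'' : ((2 : ℕ) : WithBot ℕ∞) ≤ ((rs.length : ℕ) : WithBot ℕ∞) := h'
    exact_mod_cast h''
  match rs, h2, hmax, hreg with
  | x :: y :: l, _, hmax, hreg =>
    rw [RingTheory.Sequence.isRegular_cons_iff, RingTheory.Sequence.isRegular_cons_iff] at hreg
    obtain ⟨hx, hy, -⟩ := hreg
    exact core x y (hmax x (by simp)) (hmax y (by simp)) hx hy

end Pool.Agent.W490.CMA
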