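import Mathlib
import Pool.Agent.W490.CMA.Steps

set_option autoImplicit false

/-!
# The radical of the Jacobian ideal of a product of linear forms
-/

namespace Pool.Agent.W490.CMA

open MvPolynomial

theorem pderiv_prod {n : ℕ} (i : Fin 4) (l : Fin n → R) (S : Finset (Fin n)) :
    pderiv i (∏ a ∈ S, l a) = ∑ a ∈ S, (∏ b ∈ S.erase a, l b) * pderiv i (l a) := by
  classical
  induction S using Finset.induction_on with
  | empty => simp
  | insert a S ha ih =>
    rw [Finset.prod_insert ha, pderiv_mul, ih, Finset.sum_insert ha, Finset.erase_insert ha,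
      Finset.mul_sum]
    congr 1
    · ring
    · refine Finset.sum_congr rfl fun c hc => ?_
      have hca : c ≠ a := fun h => ha (h ▸ hc)
      have : (insert a S).erase c = insert a (S.erase c) := by
        rw [Finset.erase_insert_of_ne (Ne.symm hca)]
      rw [this, Finset.prod_insert (fun h => ha (Finset.mem_of_mem_erase h))]
      ring

theorem pderiv_lin (i : Fin 4) (v : V) : pderiv i (lin v) = C ((v i : ℤ) : ℂ) := by
  unfold lin
  rw [map_sum, Finset.sum_eq_single i]
  · simp [pderiv_C_mul, pderiv_X_self]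
  · intro j _ hj
    rw [pderiv_C_mul, pderiv_X_of_ne hj, mul_zero]
  · simp

theorem aeval_lin (x : Fin 4 → ℂ) (v : V) : aeval x (lin v) = ∑ j, ((v j : ℤ) : ℂ) * x j := by
  unfold lin
  simp

theorem ev_zero {f : A} (h : ∀ α β : ℂ, (f.eval (Polynomial.C α)).eval β = 0) : f = 0 := by
  have h1 : ∀ α : ℂ, f.eval (Polynomial.C α) = 0 := fun α =>
    Polynomial.funext fun β => by rw [h α β]; simp
  apply Polynomial.eq_zero_of_infinite_isRoot
  refine Set.Infinite.mono (s := Set.range (fun α : ℂ => (Polynomial.C α : Polynomial ℂ))) ?_ ?_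
  · rintro _ ⟨α, rfl⟩
    exact h1 α
  · exact Set.infinite_range_of_injective Polynomial.C_injective

theorem vanish_iff {p q : V} (h : nd p q) (g : R) :
    g ∈ Pid p q ↔ ∀ x : Fin 4 → ℂ, aeval x (lin p) = 0 → aeval x (lin q) = 0 → aeval x g = 0 := by
  constructor
  · intro hg x h1 h2
    rw [Pid, Ideal.mem_span_pair] at hg
    obtain ⟨u, v, huv⟩ := hg
    rw [← huv, map_add, map_mul, map_mul, h1, h2]
    simp
  · intro hx
    rw [mem_Pid h]
    apply ev_zero
    intro α β
    let ev : A →ₐ[ℂ] ℂ :=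
      { toRingHom := (Polynomial.evalRingHom β).comp (Polynomial.evalRingHom (Polynomial.C α))
        commutes' := fun r => by simp [algA] }
    have hev : ∀ f, ev f = (f.eval (Polynomial.C α)).eval β := fun f => rfl
    let x : Fin 4 → ℂ := fun j => ev (eps p q (X j))
    have hx' : ∀ g, aeval x g = ev (eps p q g) := by
      intro g
      have : aeval x = ev.comp (eps p q) := by
        apply MvPolynomial.algHom_ext
        intro j
        simp [x]
      rw [this]
      rfl
    have := hx x (by rw [hx', eps_p, map_zero]) (by rw [hx', eps_q, map_zero])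
    rw [hx', hev] at this
    exact this

theorem radJ {n : ℕ} (f : Fin n → V) (hn : n ≠ 0) (L : List (V × V)) (hL : ndL L)
    (h0 : ∀ a, f a ≠ 0)
    (h1 : ∀ a b, a ≠ b → nd (f a) (f b) ∧ ∃ pq ∈ L, inP pq.1 (f a) (f b) ∧ inP pq.2 (f a) (f b))
    (h2 : ∀ pq ∈ L, ∃ a b, a ≠ b ∧ inP (f a) pq.1 pq.2 ∧ inP (f b) pq.1 pq.2) :
    (Ideal.span (Set.range fun i : Fin 4 => pderiv (R := ℂ) i (∏ a : Fin n, lin (f a))) :
      Ideal R).radical = II L := by
  classical
  set J : Ideal R := Ideal.span (Set.range fun i : Fin 4 => pderiv (R := ℂ) i (∏ a : Fin n, lin (f a)))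
    with hJ
  have hder : ∀ (x : Fin 4 → ℂ) (i : Fin 4), aeval x (pderiv (R := ℂ) i (∏ a : Fin n, lin (f a))) =
      ∑ a, ((f a i : ℤ) : ℂ) * ∏ b ∈ Finset.univ.erase a, aeval x (lin (f b)) := by
    intro x i
    rw [pderiv_prod, map_sum]
    refine Finset.sum_congr rfl fun a _ => ?_
    rw [map_mul, map_prod, pderiv_lin, mul_comm]
    simp
  have hZ : ∀ x : Fin 4 → ℂ, x ∈ zeroLocus ℂ J ↔
      ∃ a b, a ≠ b ∧ aeval x (lin (f a)) = 0 ∧ aeval x (lin (f b)) = 0 := by
    intro x
    have hZ1 : x ∈ zeroLocus ℂ J ↔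
        ∀ i, aeval x (pderiv (R := ℂ) i (∏ a : Fin n, lin (f a))) = 0 := by
      rw [mem_zeroLocus_iff]
      constructor
      · intro h i
        exact h _ (Ideal.subset_span ⟨i, rfl⟩)
      · intro h p hp
        have : J ≤ RingHom.ker (aeval x : R →ₐ[ℂ] ℂ).toRingHom := by
          rw [hJ, Ideal.span_le]
          rintro _ ⟨i, rfl⟩
          exact h i
        exact this hp
    rw [hZ1]
    constructor
    · intro h
      by_contra hne
      push Not at hne
      by_cases hex : ∃ a, aeval x (lin (f a)) = 0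
      · obtain ⟨a, ha⟩ := hex
        have hb : ∀ b, b ≠ a → aeval x (lin (f b)) ≠ 0 := fun b hb => hne a b (Ne.symm hb) ha
        obtain ⟨i, hi⟩ := Function.ne_iff.1 (h0 a)
        have h3 := h i
        rw [hder, Finset.sum_eq_single a] at h3
        · rcases mul_eq_zero.1 h3 with h4 | h4
          · exact hi (by exact_mod_cast h4)
          · rw [Finset.prod_eq_zero_iff] at h4
            obtain ⟨b, hb', hb0⟩ := h4
            exact hb b (Finset.ne_of_mem_erase hb') hb0
        · intro b _ hba
          rw [Finset.prod_eq_zero (Finset.mem_erase.2 ⟨Ne.symm hba, Finset.mem_univ a⟩) ha, mul_zero]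
        · simp
      · push Not at hex
        have h3 : ∑ i, x i * aeval x (pderiv (R := ℂ) i (∏ a : Fin n, lin (f a))) = 0 := by
          refine Finset.sum_eq_zero fun i _ => ?_
          rw [h i, mul_zero]
        have h4 : ∑ i, x i * aeval x (pderiv (R := ℂ) i (∏ a : Fin n, lin (f a))) =
            n * ∏ a, aeval x (lin (f a)) := by
          simp only [hder, Finset.mul_sum]
          rw [Finset.sum_comm]
          have : ∀ a ∈ (Finset.univ : Finset (Fin n)), ∑ i, x i * (((f a i : ℤ) : ℂ) *
              ∏ b ∈ Finset.univ.erase a, aeval x (lin (f b))) = ∏ a, aeval x (lin (f a)) := by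
            intro a ha
            rw [← Finset.mul_prod_erase _ _ ha, aeval_lin x (f a), Finset.sum_mul]
            refine Finset.sum_congr rfl fun i _ => ?_
            ring
          rw [Finset.sum_congr rfl this]
          simp
        rw [h3] at h4
        have h5 : (n : ℂ) ≠ 0 := by exact_mod_cast hn
        have h6 : ∏ a, aeval x (lin (f a)) ≠ 0 := Finset.prod_ne_zero_iff.2 fun a _ => hex a
        exact mul_ne_zero h5 h6 h4.symm
    · rintro ⟨a, b, hab, ha, hb⟩ i
      rw [hder]
      refine Finset.sum_eq_zero fun c _ => ?_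
      by_cases hca : c = a
      · subst hca
        rw [Finset.prod_eq_zero (Finset.mem_erase.2 ⟨Ne.symm hab, Finset.mem_univ b⟩) hb, mul_zero]
      · rw [Finset.prod_eq_zero (Finset.mem_erase.2 ⟨fun h => hca h.symm, Finset.mem_univ a⟩) ha,
          mul_zero]
  rw [← vanishingIdeal_zeroLocus_eq_radical (K := ℂ)]
  ext g
  rw [mem_vanishingIdeal_iff, mem_II]
  constructor
  · intro h pq hpq
    obtain ⟨a, b, hab, ha, hb⟩ := h2 pq hpq
    have hnd := hL pq hpq
    rw [vanish_iff hnd]
    intro x h3 h4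
    apply h x
    rw [hZ]
    refine ⟨a, b, hab, ?_, ?_⟩
    · exact (vanish_iff hnd _).1 ((lin_mem_Pid hnd _).2 ha) x h3 h4
    · exact (vanish_iff hnd _).1 ((lin_mem_Pid hnd _).2 hb) x h3 h4
  · intro h x hx
    obtain ⟨a, b, hab, ha, hb⟩ := (hZ x).1 hx
    obtain ⟨hnd, pq, hpq, h3, h4⟩ := h1 a b hab
    exact (vanish_iff hnd g).1 (Pid_le hnd h3 h4 (h pq hpq)) x ha hb

end Pool.Agent.W490.CMA
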