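import Mathlib
import Pool.Agent.W490.CMA.NonCM2
import Pool.Agent.W490.CMA.Null
import Pool.Agent.W490.CMA.Lattice

set_option autoImplicit false

/-!
# Assembly
-/

namespace Pool.Agent.W490.CMA

open MvPolynomial

/-- the special arrangement of 13 planes -/
def fF : Fin 13 → V := ![a1, a2, a3, b1, b2, b3F, c1F, c2F, c3F, d0, d1, d2, d3]

/-- the general arrangement of 13 planes -/
def fG : Fin 13 → V := ![a1, a2, a3, b1, b2, b3G, c1G, c2G, c3G, d0, d1, d2, d3]

/-- complex coefficients -/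
def cast (f : Fin 13 → V) : Fin 13 → Fin 4 → ℂ := fun i j => ((f i j : ℤ) : ℂ)

theorem det4_cast (a b c d : V) : det4 (fun j => ((a j : ℤ) : ℂ)) (fun j => ((b j : ℤ) : ℂ))
    (fun j => ((c j : ℤ) : ℂ)) (fun j => ((d j : ℤ) : ℂ)) = ((det4 a b c d : ℤ) : ℂ) := by
  simp only [det4]
  push_cast
  ring

theorem same_matroid : ∀ a b c d : Fin 13,
    det4 (fF a) (fF b) (fF c) (fF d) = 0 ↔ det4 (fG a) (fG b) (fG c) (fG d) = 0 := by
  decide +kernel

theorem span_top (u : Fin 13 → Fin 4 → ℂ) (a b c d : Fin 13)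
    (h : det4 (u a) (u b) (u c) (u d) ≠ 0) : Submodule.span ℂ (Set.range u) = ⊤ := by
  rw [eq_top_iff]
  intro v _
  have key : v = (det4 (u a) (u b) (u c) (u d))⁻¹ • (det4 v (u b) (u c) (u d) • u a +
      det4 (u a) v (u c) (u d) • u b + det4 (u a) (u b) v (u d) • u c +
      det4 (u a) (u b) (u c) v • u d) := by
    funext i
    have := cramer (u a) (u b) (u c) (u d) v i
    simp only [Pi.smul_apply, Pi.add_apply, smul_eq_mul]
    field_simp
    linear_combination this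
  rw [key]
  have hm : ∀ i, u i ∈ Submodule.span ℂ (Set.range u) := fun i => Submodule.subset_span ⟨i, rfl⟩
  exact Submodule.smul_mem _ _ (Submodule.add_mem _ (Submodule.add_mem _ (Submodule.add_mem _
    (Submodule.smul_mem _ _ (hm a)) (Submodule.smul_mem _ _ (hm b)))
    (Submodule.smul_mem _ _ (hm c))) (Submodule.smul_mem _ _ (hm d)))

theorem nd_indep {p q : V} (h : nd p q) :
    LinearIndependent ℂ ![(fun j => ((p j : ℤ) : ℂ)), (fun j => ((q j : ℤ) : ℂ))] := by
  rw [LinearIndependent.pair_iff]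
  intro s t hst
  have h' : ((det4 sV tV p q : ℤ) : ℂ) ≠ 0 := by exact_mod_cast h
  have hv : ∀ j, s * ((p j : ℤ) : ℂ) + t * ((q j : ℤ) : ℂ) = 0 := fun j => by
    have := congrFun hst j
    simpa using this
  constructor
  · have : s * ((det4 sV tV p q : ℤ) : ℂ) = 0 := by
      rw [← det4_cast]
      simp only [det4]
      have e0 := hv 0
      have e1 := hv 1
      have e2 := hv 2
      have e3 := hv 3
      generalize ((p 0 : ℤ) : ℂ) = p0 at *
      generalize ((p 1 : ℤ) : ℂ) = p1 at *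
      generalize ((p 2 : ℤ) : ℂ) = p2 at *
      generalize ((p 3 : ℤ) : ℂ) = p3 at *
      generalize ((q 0 : ℤ) : ℂ) = q0 at *
      generalize ((q 1 : ℤ) : ℂ) = q1 at *
      generalize ((q 2 : ℤ) : ℂ) = q2 at *
      generalize ((q 3 : ℤ) : ℂ) = q3 at *
      generalize ((sV 0 : ℤ) : ℂ) = s0
      generalize ((sV 1 : ℤ) : ℂ) = s1
      generalize ((sV 2 : ℤ) : ℂ) = s2
      generalize ((sV 3 : ℤ) : ℂ) = s3
      generalize ((tV 0 : ℤ) : ℂ) = t0
      generalize ((tV 1 : ℤ) : ℂ) = t1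
      generalize ((tV 2 : ℤ) : ℂ) = t2
      generalize ((tV 3 : ℤ) : ℂ) = t3
      linear_combination
        ((s0 * t1 - s1 * t0) * (-q3) * (-1) * e2 + (s0 * t1 - s1 * t0) * (-q2) * e3
        + (s0 * t2 - s2 * t0) * (-q3) * e1 - (s0 * t2 - s2 * t0) * (-q1) * e3
        + (s0 * t3 - s3 * t0) * q2 * e1 - (s0 * t3 - s3 * t0) * q1 * e2
        + (s1 * t2 - s2 * t1) * q3 * e0 - (s1 * t2 - s2 * t1) * q0 * e3
        - (s1 * t3 - s3 * t1) * q2 * e0 + (s1 * t3 - s3 * t1) * q0 * e2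
        + (s2 * t3 - s3 * t2) * q1 * e0 - (s2 * t3 - s3 * t2) * q0 * e1)
    exact (mul_eq_zero.1 this).resolve_right h'
  · have : t * ((det4 sV tV p q : ℤ) : ℂ) = 0 := by
      rw [← det4_cast]
      simp only [det4]
      have e0 := hv 0
      have e1 := hv 1
      have e2 := hv 2
      have e3 := hv 3
      generalize ((p 0 : ℤ) : ℂ) = p0 at *
      generalize ((p 1 : ℤ) : ℂ) = p1 at *
      generalize ((p 2 : ℤ) : ℂ) = p2 at *
      generalize ((p 3 : ℤ) : ℂ) = p3 at *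
      generalize ((q 0 : ℤ) : ℂ) = q0 at *
      generalize ((q 1 : ℤ) : ℂ) = q1 at *
      generalize ((q 2 : ℤ) : ℂ) = q2 at *
      generalize ((q 3 : ℤ) : ℂ) = q3 at *
      generalize ((sV 0 : ℤ) : ℂ) = s0
      generalize ((sV 1 : ℤ) : ℂ) = s1
      generalize ((sV 2 : ℤ) : ℂ) = s2
      generalize ((sV 3 : ℤ) : ℂ) = s3
      generalize ((tV 0 : ℤ) : ℂ) = t0
      generalize ((tV 1 : ℤ) : ℂ) = t1
      generalize ((tV 2 : ℤ) : ℂ) = t2
      generalize ((tV 3 : ℤ) : ℂ) = t3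
      linear_combination
        ((s0 * t1 - s1 * t0) * p2 * e3 - (s0 * t1 - s1 * t0) * p3 * e2
        - (s0 * t2 - s2 * t0) * p1 * e3 + (s0 * t2 - s2 * t0) * p3 * e1
        + (s0 * t3 - s3 * t0) * p1 * e2 - (s0 * t3 - s3 * t0) * p2 * e1
        + (s1 * t2 - s2 * t1) * p0 * e3 - (s1 * t2 - s2 * t1) * p3 * e0
        - (s1 * t3 - s3 * t1) * p0 * e2 + (s1 * t3 - s3 * t1) * p2 * e0
        + (s2 * t3 - s3 * t2) * p0 * e1 - (s2 * t3 - s3 * t2) * p1 * e0)
    exact (mul_eq_zero.1 this).resolve_right h'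

theorem ndL_L11 : ndL L11 := by decide +kernel

theorem radF : (Ideal.span (Set.range fun i : Fin 4 => pderiv (R := ℂ) i
    (∏ a : Fin 13, lin (fF a))) : Ideal R).radical = II LF :=
  radJ fF (by norm_num) LF ndL_LF (by decide +kernel) (by decide +kernel) (by decide +kernel)

theorem radG : (Ideal.span (Set.range fun i : Fin 4 => pderiv (R := ℂ) i
    (∏ a : Fin 13, lin (fG a))) : Ideal R).radical = II L11 :=
  radJ fG (by norm_num) L11 ndL_L11 (by decide +kernel) (by decide +kernel) (by decide +kernel)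

theorem isCM_G : IsCM (R ⧸ (Ideal.span (Set.range fun i : Fin 4 => pderiv (R := ℂ) i
    (∏ a : Fin 13, lin (fG a))) : Ideal R).radical) := by
  rw [radG]
  exact isCM_of_reg ndL_L11 reg_L11

theorem not_isCM_F' : ¬ IsCM (R ⧸ (Ideal.span (Set.range fun i : Fin 4 => pderiv (R := ℂ) i
    (∏ a : Fin 13, lin (fF a))) : Ideal R).radical) := by
  rw [radF]
  exact not_isCM_F

end Pool.Agent.W490.CMA
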